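import Pool.Agent.Lib_helper27.Calc
import Pool.Agent.Lib_helper27.Q.CohP
import Pool.Agent.Lib_helper27.MS.FN

/-!
# Basic notions: regular predicates, the well-order, ranks
-/

namespace Pool.Agent.T27

open Pool.Agent.Lib_helper27 Cardinal

/-- a well-order of type `ω₁` -/
abbrev Om1 : Type := Q.Om1

/-- regular predicates on a poset -/
structure RP (P : Type) [Preorder P] where
  /-- the predicate -/
  s : P → Prop
  mono' : ∀ {p q}, q ≤ p → s p → s q
  reg' : ∀ {p}, Loc p s → s p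

instance {P : Type} [Preorder P] : CoeFun (RP P) fun _ => P → Prop := ⟨RP.s⟩

section rp

variable {P : Type} [Preorder P]

theorem RP.mono (x : RP P) {p q : P} (h : q ≤ p) (hp : x p) : x q := x.mono' h hp

theorem RP.reg (x : RP P) {p : P} (h : Loc p x) : x p := x.reg' h

theorem RP.loc_iff (x : RP P) {p : P} : Loc p x ↔ x p :=
  ⟨x.reg, fun h => Loc.pure fun _ hq => x.mono hq h⟩

@[ext]
theorem RP.ext {x y : RP P} (h : ∀ p, x p ↔ y p) : x = y := by
  cases x with
  | mk s _ _ =>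
    cases y with
    | mk t _ _ =>
      have : s = t := funext fun p => propext (h p)
      subst this
      rfl

/-- regularization -/
def Rg (φ : P → Prop) : RP P where
  s := fun p => Loc p φ
  mono' := fun h hp => hp.mono h
  reg' := fun h => h.bind fun _ _ h' => h'

theorem rg_iff {φ : P → Prop} {p : P} : Rg φ p ↔ Loc p φ := Iff.rfl

theorem rg_of {φ : P → Prop} {p : P} (h : ∀ q ≤ p, φ q) : Rg φ p := Loc.pure h

/-- the empty predicate -/
def RP.bot : RP P where
  s := fun _ => False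
  mono' := fun _ h => h
  reg' := fun h => (h.exists).elim fun _ h => h.2

theorem RP.not_bot {p : P} : ¬ (RP.bot : RP P) p := id

/-- the full predicate -/
def RP.top : RP P where
  s := fun _ => True
  mono' := fun _ h => h
  reg' := fun _ => trivial

/-- negation -/
def RP.neg (x : RP P) : RP P where
  s := fun p => ∀ q ≤ p, ¬ x q
  mono' := fun h hp q hq => hp q (hq.trans h)
  reg' := by
    intro p h q hq hx
    obtain ⟨r, hr, h1⟩ := h q hq
    exact h1 r le_rfl (x.mono hr hx)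

theorem RP.neg_iff {x : RP P} {p : P} : x.neg p ↔ ∀ q ≤ p, ¬ x q := Iff.rfl

/-- conjunction -/
def RP.and (x y : RP P) : RP P where
  s := fun p => x p ∧ y p
  mono' := fun h hp => ⟨x.mono h hp.1, y.mono h hp.2⟩
  reg' := fun h => ⟨x.reg (h.imp fun _ _ h => h.1), y.reg (h.imp fun _ _ h => h.2)⟩

/-- disjunction -/
def RP.or (x y : RP P) : RP P := Rg fun p => x p ∨ y p

theorem RP.em (x : RP P) (p : P) : ∃ q ≤ p, x q ∨ x.neg q := by
  by_cases h : ∃ q ≤ p, x q
  · obtain ⟨q, hq, h⟩ := h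
    exact ⟨q, hq, Or.inl h⟩
  · push Not at h
    exact ⟨p, le_rfl, Or.inr h⟩

/-- regular predicates which agree densely agree -/
theorem RP.iff_of_loc {x y : RP P} {p : P} (h : ∀ q ≤ p, ∃ r ≤ q, (x r ↔ y r) ∧
    ∀ r' ≤ r, (x r' ↔ y r')) : x p ↔ y p := by
  constructor
  · intro hx
    refine y.reg fun q hq => ?_
    obtain ⟨r, hr, h1, _⟩ := h q hq
    exact ⟨r, hr, h1.1 (x.mono (hr.trans hq) hx)⟩
  · intro hy
    refine x.reg fun q hq => ?_
    obtain ⟨r, hr, h1, _⟩ := h q hq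
    exact ⟨r, hr, h1.2 (y.mono (hr.trans hq) hy)⟩

end rp

/-! ### The well-order -/

variable {Ω : Type} [LinearOrder Ω]

/-- `Ω` is a well-order of type an inaccessible cardinal -/
class Inac (Ω : Type) [LinearOrder Ω] : Prop extends WellFoundedLT Ω where
  unc : aleph 1 < #Ω
  init : ∀ α : Ω, #(Set.Iio α) < #Ω
  pow : ∀ c : Cardinal.{0}, c < #Ω → 2 ^ c < #Ω
  reg : ∀ (ι : Type) (f : ι → Ω), #ι < #Ω → ∃ b, ∀ i, f i < b

/-- a normal ultrafilter -/
structure NUlt (U : Ultrafilter Ω) : Prop where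
  comp : ∀ (ι : Type) (A : ι → Set Ω), #ι < #Ω → (∀ i, A i ∈ U) → (⋂ i, A i) ∈ U
  tail : ∀ α, Set.Ioi α ∈ U
  norm : ∀ A : Ω → Set Ω, (∀ α, A α ∈ U) → {β | ∀ α < β, β ∈ A α} ∈ U

/-- the coordinates which may be active: those of uncountable cofinality -/
def Act (β : Ω) : Prop := ∀ f : ℕ → Ω, (∀ n, f n < β) → ∃ γ < β, ∀ n, f n < γ

/-- closed under sequences of length less than `β` -/
def RegP (β : Ω) : Prop := ∀ γ < β, ∀ f : Set.Iio γ → Ω, (∀ x, f x < β) → ∃ δ < β, ∀ x, f x < δ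

/-- a rank function with small fibres -/
def Rkd {X : Type} (rk : X → Ω) : Prop := ∀ β, #{x // rk x < β} < #Ω

end Pool.Agent.T27
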