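import Pool.Agent.Lib_helper27.T.Bas

/-!
# Cohen conditions
-/

namespace Pool.Agent.T27

open Pool.Agent.Lib_helper27 Cardinal

/-- finite partial functions -/
structure Co (Ω : Type) : Type where
  /-- the function -/
  f : Ω → Option Bool
  fin : {x | f x ≠ none}.Finite

@[ext]
theorem Co.ext' {Ω : Type} {a b : Co Ω} (h : ∀ x, a.f x = b.f x) : a = b := by
  cases a with
  | mk f _ =>
    cases b with
    | mk g _ =>
      have : f = g := funext h
      subst this
      rfl

instance {Ω : Type} : PartialOrder (Co Ω) where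
  le a b := ∀ x c, b.f x = some c → a.f x = some c
  le_refl _ _ _ h := h
  le_trans _ _ _ h1 h2 x c h := h1 x c (h2 x c h)
  le_antisymm a b h1 h2 := by
    refine Co.ext' fun x => ?_
    cases ha : a.f x with
    | some c => exact (h2 x c ha).symm
    | none =>
      cases hb : b.f x with
      | some c => rw [h1 x c hb] at ha; exact absurd ha (by simp)
      | none => rfl

section basic

variable {Ω : Type}

theorem Co.le_def {a b : Co Ω} : a ≤ b ↔ ∀ x c, b.f x = some c → a.f x = some c := Iff.rfl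

/-- the empty condition -/
def Co.emp : Co Ω := ⟨fun _ => none, by simp⟩

theorem Co.le_emp (a : Co Ω) : a ≤ Co.emp := fun _ _ h => by simp [Co.emp] at h

/-- compatible conditions -/
def Co.Cp (a b : Co Ω) : Prop := ∀ x c d, a.f x = some c → b.f x = some d → c = d

theorem Co.Cp.symm {a b : Co Ω} (h : Co.Cp a b) : Co.Cp b a := fun x c d h1 h2 => (h x d c h2 h1).symm

/-- the union of two conditions (the values of the first one take precedence) -/
def Co.un (a b : Co Ω) : Co Ω where
  f x := (a.f x).orElse fun _ => b.f x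
  fin := by
    refine (a.fin.union b.fin).subset ?_
    intro x hx
    by_contra h
    simp only [Set.mem_union, Set.mem_ofPred_eq, not_or, not_not] at h
    apply hx
    show (a.f x).orElse (fun _ => b.f x) = none
    rw [h.1, h.2]
    rfl

theorem Co.un_le_left (a b : Co Ω) : Co.un a b ≤ a := by
  intro x c h
  show (a.f x).orElse (fun _ => b.f x) = some c
  rw [h]
  rfl

theorem Co.un_le_right {a b : Co Ω} (h : Co.Cp a b) : Co.un a b ≤ b := by
  intro x c hb
  show (a.f x).orElse (fun _ => b.f x) = some c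
  cases ha : a.f x with
  | none => exact hb
  | some d => rw [h x d c ha hb]; rfl

theorem Co.le_un {a b c : Co Ω} (h1 : c ≤ a) (h2 : c ≤ b) : c ≤ Co.un a b := by
  intro x d h
  change (a.f x).orElse (fun _ => b.f x) = some d at h
  cases ha : a.f x with
  | none => rw [ha] at h; exact h2 x d h
  | some e => rw [ha] at h; exact h1 x d (ha.trans h)

theorem Co.cp_of_le {a b c : Co Ω} (h1 : c ≤ a) (h2 : c ≤ b) : Co.Cp a b := by
  intro x d e ha hb
  have := h1 x d ha
  rw [h2 x e hb] at this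
  simpa using this.symm

theorem Co.cp_iff {a b : Co Ω} : Co.Cp a b ↔ ∃ c, c ≤ a ∧ c ≤ b :=
  ⟨fun h => ⟨_, Co.un_le_left a b, Co.un_le_right h⟩, fun ⟨_, h1, h2⟩ => Co.cp_of_le h1 h2⟩

theorem Co.Cp.mono {a b a' b' : Co Ω} (h : Co.Cp a' b') (ha : a' ≤ a) (hb : b' ≤ b) : Co.Cp a b :=
  fun x c d h1 h2 => h x c d (ha x c h1) (hb x d h2)

end basic

section res

variable {Ω : Type} [LinearOrder Ω]

/-- the part below `α` -/
def Co.res (α : Ω) (a : Co Ω) : Co Ω where
  f x := if x < α then a.f x else none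
  fin := a.fin.subset fun x hx => by
    intro h
    apply hx
    show (if x < α then a.f x else none) = none
    split_ifs <;> simp [h]

/-- the part from `α` on -/
def Co.hi (α : Ω) (a : Co Ω) : Co Ω where
  f x := if x < α then none else a.f x
  fin := a.fin.subset fun x hx => by
    intro h
    apply hx
    show (if x < α then none else a.f x) = none
    split_ifs <;> simp [h]

theorem Co.res_f {α x : Ω} {a : Co Ω} : (a.res α).f x = if x < α then a.f x else none := rfl

theorem Co.hi_f {α x : Ω} {a : Co Ω} : (a.hi α).f x = if x < α then none else a.f x := rfl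

theorem Co.res_some {α x : Ω} {a : Co Ω} {c : Bool} :
    (a.res α).f x = some c ↔ x < α ∧ a.f x = some c := by
  rw [Co.res_f]
  split_ifs with h <;> simp [h]

theorem Co.hi_some {α x : Ω} {a : Co Ω} {c : Bool} :
    (a.hi α).f x = some c ↔ α ≤ x ∧ a.f x = some c := by
  rw [Co.hi_f]
  split_ifs with h
  · simp [not_le.2 h]
  · simp [not_lt.1 h]

theorem Co.le_res (α : Ω) (a : Co Ω) : a ≤ a.res α := fun _ _ h => (Co.res_some.1 h).2

theorem Co.le_hi (α : Ω) (a : Co Ω) : a ≤ a.hi α := fun _ _ h => (Co.hi_some.1 h).2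

theorem Co.res_mono {α : Ω} {a b : Co Ω} (h : a ≤ b) : a.res α ≤ b.res α := by
  intro x c hx
  rw [Co.res_some] at hx ⊢
  exact ⟨hx.1, h x c hx.2⟩

theorem Co.hi_mono {α : Ω} {a b : Co Ω} (h : a ≤ b) : a.hi α ≤ b.hi α := by
  intro x c hx
  rw [Co.hi_some] at hx ⊢
  exact ⟨hx.1, h x c hx.2⟩

theorem Co.res_res {α β : Ω} {a : Co Ω} : (a.res α).res β = a.res (min α β) := by
  refine Co.ext' fun x => ?_
  simp only [Co.res_f, lt_min_iff]
  split_ifs <;> simp_all

theorem Co.res_res_of_le {α β : Ω} (h : α ≤ β) {a : Co Ω} : (a.res β).res α = a.res α := by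
  rw [Co.res_res, min_eq_right h]

theorem Co.res_res_of_le' {α β : Ω} (h : α ≤ β) {a : Co Ω} : (a.res α).res β = a.res α := by
  rw [Co.res_res, min_eq_left h]

theorem Co.hi_hi {α : Ω} {a : Co Ω} : (a.hi α).hi α = a.hi α := by
  refine Co.ext' fun x => ?_
  simp only [Co.hi_f]
  split_ifs <;> rfl

theorem Co.hi_res {α : Ω} {a : Co Ω} : (a.hi α).res α = Co.emp := by
  refine Co.ext' fun x => ?_
  simp only [Co.hi_f, Co.res_f, Co.emp]
  split_ifs <;> rfl

theorem Co.res_hi {α : Ω} {a : Co Ω} : (a.res α).hi α = Co.emp := by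
  refine Co.ext' fun x => ?_
  simp only [Co.hi_f, Co.res_f, Co.emp]
  split_ifs <;> rfl

/-- `b` below `α`, `a` from `α` on -/
def Co.gl (α : Ω) (b a : Co Ω) : Co Ω := Co.un (b.res α) (a.hi α)

theorem Co.gl_f {α x : Ω} {b a : Co Ω} : (Co.gl α b a).f x = if x < α then b.f x else a.f x := by
  show ((if x < α then b.f x else none).orElse fun _ => if x < α then none else a.f x) = _
  split_ifs
  · cases b.f x <;> rfl
  · rfl

theorem Co.gl_res {α : Ω} {b a : Co Ω} : (Co.gl α b a).res α = b.res α := by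
  refine Co.ext' fun x => ?_
  simp only [Co.gl_f, Co.res_f]
  split_ifs <;> rfl

theorem Co.gl_hi {α : Ω} {b a : Co Ω} : (Co.gl α b a).hi α = a.hi α := by
  refine Co.ext' fun x => ?_
  simp only [Co.gl_f, Co.hi_f]
  split_ifs <;> rfl

theorem Co.gl_self {α : Ω} {a : Co Ω} : Co.gl α a a = a := by
  refine Co.ext' fun x => ?_
  simp only [Co.gl_f]
  split_ifs <;> rfl

theorem Co.gl_res_left {α : Ω} {b a : Co Ω} : Co.gl α (b.res α) a = Co.gl α b a := by
  refine Co.ext' fun x => ?_
  simp only [Co.gl_f, Co.res_f]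
  split_ifs <;> rfl

theorem Co.gl_hi_right {α : Ω} {b a : Co Ω} : Co.gl α b (a.hi α) = Co.gl α b a := by
  refine Co.ext' fun x => ?_
  simp only [Co.gl_f, Co.hi_f]
  split_ifs <;> rfl

theorem Co.gl_mono {α : Ω} {a b c d : Co Ω} (h1 : a.res α ≤ b.res α) (h2 : c.hi α ≤ d.hi α) :
    Co.gl α a c ≤ Co.gl α b d := by
  intro x e h
  rw [Co.gl_f] at h ⊢
  split_ifs at h ⊢ with hx
  · exact (Co.res_some.1 (h1 x e (Co.res_some.2 ⟨hx, h⟩))).2
  · exact (Co.hi_some.1 (h2 x e (Co.hi_some.2 ⟨not_lt.1 hx, h⟩))).2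

theorem Co.gl_le {α : Ω} {b a : Co Ω} (h : b.res α ≤ a.res α) : Co.gl α b a ≤ a := by
  conv_rhs => rw [← Co.gl_self (α := α) (a := a)]
  exact Co.gl_mono h le_rfl

theorem Co.gl_le_res {α : Ω} {b a : Co Ω} : Co.gl α b a ≤ b.res α := Co.un_le_left _ _

theorem Co.le_gl {α : Ω} {b a c : Co Ω} (h1 : c.res α ≤ b.res α) (h2 : c ≤ a) :
    c ≤ Co.gl α b a := by
  conv_lhs => rw [← Co.gl_self (α := α) (a := c)]
  exact Co.gl_mono h1 (Co.hi_mono h2)

theorem Co.cp_res {α : Ω} {a b : Co Ω} (h1 : Co.Cp (a.res α) (b.res α))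
    (h2 : Co.Cp (a.hi α) (b.hi α)) : Co.Cp a b := by
  intro x c d ha hb
  rcases lt_or_ge x α with h | h
  · exact h1 x c d (Co.res_some.2 ⟨h, ha⟩) (Co.res_some.2 ⟨h, hb⟩)
  · exact h2 x c d (Co.hi_some.2 ⟨h, ha⟩) (Co.hi_some.2 ⟨h, hb⟩)

/-- a finite set is bounded below an active coordinate -/
theorem Co.exists_res_eq {β : Ω} (hβ : Act β) (hne : ∃ γ, γ < β) (a : Co Ω) :
    ∃ γ < β, a.res β = a.res γ := by
  classical
  have h1 : {x | x < β ∧ a.f x ≠ none}.Finite := a.fin.subset fun x hx => hx.2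
  obtain ⟨γ0, hγ0⟩ := hne
  have h2 : ∀ s : Finset Ω, (∀ x ∈ s, x < β) → ∃ γ < β, ∀ x ∈ s, x < γ := by
    intro s
    induction s using Finset.induction_on with
    | empty => exact fun _ => ⟨γ0, hγ0, by simp⟩
    | insert x s _ ih =>
      intro hs
      obtain ⟨γ, hγ, h⟩ := ih fun y hy => hs y (Finset.mem_insert_of_mem hy)
      obtain ⟨δ, hδ, h'⟩ := hβ (fun n => if n = 0 then x else γ) (by
        intro n
        split_ifs
        · exact hs x (Finset.mem_insert_self _ _)
        · exact hγ)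
      refine ⟨δ, hδ, fun y hy => ?_⟩
      rcases Finset.mem_insert.1 hy with rfl | hy
      · simpa using h' 0
      · exact (h y hy).trans (by simpa using h' 1)
  obtain ⟨γ, hγ, h3⟩ := h2 h1.toFinset (fun x hx => by
    rw [Set.Finite.mem_toFinset] at hx
    exact hx.1)
  refine ⟨γ, hγ, Co.ext' fun x => ?_⟩
  simp only [Co.res_f]
  split_ifs with hx hx'
  · rfl
  · by_contra hne
    exact hx' (h3 x (by simpa using ⟨hx, hne⟩))
  · exact absurd (by assumption) (fun h : x < γ => hx (h.trans hγ))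
  · rfl

/-- regularization of a predicate which depends only on the part below `β` -/
theorem Rg_based {β : Ω} {Φ : Co Ω → Prop} (hΦ : ∀ a, Φ a ↔ Φ (a.res β)) {a : Co Ω}
    (h : Rg Φ a) : Rg Φ (a.res β) := by
  intro b hb
  have h0 : b.res β ≤ a.res β := by
    have := Co.res_mono (α := β) hb
    rwa [Co.res_res_of_le le_rfl] at this
  obtain ⟨d, hd, hd'⟩ := h (Co.gl β b a) (Co.gl_le h0)
  have h1 : d.res β ≤ b.res β := by
    have := Co.res_mono (α := β) hd
    rwa [Co.gl_res] at this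
  refine ⟨Co.gl β d b, Co.gl_le h1, ?_⟩
  rw [hΦ, Co.gl_res, ← hΦ]
  exact hd'

end res

end Pool.Agent.T27
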