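import Pool.Agent.Lib_helper27.T.Mt

/-!
# Tree data
-/

set_option linter.unusedSectionVars false

namespace Pool.Agent.T27

open Pool.Agent.Lib_helper27 Cardinal

variable {Ω : Type} [LinearOrder Ω]

/-- Names (over the Mitchell poset) of a height, of the levels (families of names over the Mitchell
poset and the Cohen poset) and of a branch. -/
structure Dt (Ω : Type) [LinearOrder Ω] : Type where
  /-- `H γ m`: `m` forces that the level `γ` exists -/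
  H : Ω → RP (Mt Ω)
  /-- the levels -/
  z : Ω → Ω → Nm Ω
  /-- the branch -/
  x : Nm Ω

theorem Dt.ext' {e e' : Dt Ω} (h1 : ∀ γ m, e.H γ m ↔ e'.H γ m)
    (h2 : ∀ γ i ξ k, e.z γ i ξ k ↔ e'.z γ i ξ k) (h3 : ∀ ξ k, e.x ξ k ↔ e'.x ξ k) : e = e' := by
  cases e with
  | mk H z x =>
    cases e' with
    | mk H' z' x' =>
      have e1 : H = H' := funext fun γ => RP.ext fun m => h1 γ m
      have e2 : z = z' := by
        funext γ i ξ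
        exact RP.ext fun a => h2 γ i ξ a
      have e3 : x = x' := funext fun ξ => RP.ext fun k => h3 ξ k
      subst e1
      subst e2
      subst e3
      rfl

/-- `m` forces that `e` is a tree of names -/
structure TV (m : Mt Ω) (e : Dt Ω) : Prop where
  dn : ∀ {m' γ γ'}, m' ≤ m → e.H γ m' → γ' ≤ γ → e.H γ' m'
  res : ∀ {m' γ γ'}, m' ≤ m → e.H γ m' → γ' ≤ γ → ∀ i, In m' γ' (e.z γ') (e.z γ i)
  rep : ∀ {m' γ γ'}, m' ≤ m → e.H γ m' → γ' ≤ γ → ∀ i j,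
    In m' γ (e.z γ) (glue γ' (e.z γ' j) (e.z γ i))
  flp : ∀ {m' γ}, m' ≤ m → e.H γ m' → ∀ ξ < γ, ∀ i, In m' γ (e.z γ) (flipAt ξ (e.z γ i))

/-- `m` forces that `x` is a branch of `e` -/
def Brn (m : Mt Ω) (e : Dt Ω) (x : Nm Ω) : Prop := ∀ m' γ, m' ≤ m → e.H γ m' → In m' γ (e.z γ) x

/-- `m` forces that `e` is a tree of names with a branch -/
structure DV (m : Mt Ω) (e : Dt Ω) : Prop extends TV m e where
  br : Brn m e e.x

/-- `m` forces that `e'` is an end-extension of `e` -/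
def LeT (m : Mt Ω) (e' e : Dt Ω) : Prop :=
  ∀ m' ≤ m, ∀ γ, e.H γ m' → e'.H γ m' ∧ ∀ i, EqM m' γ (e'.z γ i) (e.z γ i)

/-- `m` forces that `y` and `x` agree below the height of `e` -/
def LeX (m : Mt Ω) (e : Dt Ω) (y x : Nm Ω) : Prop := ∀ m' ≤ m, ∀ γ, e.H γ m' → EqM m' γ y x

/-- `m` forces that `e'` extends `e` -/
structure LeD (m : Mt Ω) (e' e : Dt Ω) : Prop where
  t : LeT m e' e
  x : LeX m e e'.x e.x

/-- `m` forces that the last level of `e` is the level `δ` -/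
def Hts (m : Mt Ω) (e : Dt Ω) (δ : Ω) : Prop :=
  ∀ γ, (γ ≤ δ → e.H γ m) ∧ (δ < γ → ∀ m' ≤ m, ¬ e.H γ m')

/-- `m` forces that the levels of `e` are those below `δ` -/
def Hop (m : Mt Ω) (e : Dt Ω) (δ : Ω) : Prop :=
  ∀ γ, (γ < δ → e.H γ m) ∧ (δ ≤ γ → ∀ m' ≤ m, ¬ e.H γ m')

/-- `m` forces that `e` has a last level -/
def RCl (m : Mt Ω) (e : Dt Ω) : Prop := Loc m fun m' => ∃ δ, Hts m' e δ

/-! ### Basic facts -/

theorem TV.mono {m m' : Mt Ω} {e : Dt Ω} (h : TV m e) (hm : m' ≤ m) : TV m' e :=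
  ⟨fun h1 => h.dn (h1.trans hm), fun h1 => h.res (h1.trans hm), fun h1 => h.rep (h1.trans hm),
    fun h1 => h.flp (h1.trans hm)⟩

theorem Brn.mono {m m' : Mt Ω} {e : Dt Ω} {x : Nm Ω} (h : Brn m e x) (hm : m' ≤ m) :
    Brn m' e x := fun m'' γ h1 => h m'' γ (h1.trans hm)

theorem DV.mono {m m' : Mt Ω} {e : Dt Ω} (h : DV m e) (hm : m' ≤ m) : DV m' e :=
  ⟨h.toTV.mono hm, h.br.mono hm⟩

theorem TV.dense {m : Mt Ω} {e : Dt Ω} (h : Loc m fun m' => TV m' e) : TV m e := by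
  refine ⟨?_, ?_, ?_, ?_⟩
  · intro m' γ γ' hm hH hle
    refine (e.H γ').reg ((h.mono hm).imp fun m'' hm'' h1 => ?_)
    exact h1.dn le_rfl ((e.H γ).mono hm'' hH) hle
  · intro m' γ γ' hm hH hle i
    refine In.dense ((h.mono hm).imp fun m'' hm'' h1 => ?_)
    exact h1.res le_rfl ((e.H γ).mono hm'' hH) hle i
  · intro m' γ γ' hm hH hle i j
    refine In.dense ((h.mono hm).imp fun m'' hm'' h1 => ?_)
    exact h1.rep le_rfl ((e.H γ).mono hm'' hH) hle i j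
  · intro m' γ hm hH ξ hξ i
    refine In.dense ((h.mono hm).imp fun m'' hm'' h1 => ?_)
    exact h1.flp le_rfl ((e.H γ).mono hm'' hH) ξ hξ i

theorem Brn.dense {m : Mt Ω} {e : Dt Ω} {x : Nm Ω} (h : Loc m fun m' => Brn m' e x) :
    Brn m e x := fun m' γ hm hH => In.dense ((h.mono hm).imp fun m'' hm'' h1 =>
  h1 m'' γ le_rfl ((e.H γ).mono hm'' hH))

theorem DV.dense {m : Mt Ω} {e : Dt Ω} (h : Loc m fun m' => DV m' e) : DV m e :=
  ⟨TV.dense (h.imp fun _ _ h => h.toTV), Brn.dense (h.imp fun _ _ h => h.br)⟩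

theorem LeT.refl (m : Mt Ω) (e : Dt Ω) : LeT m e e := fun _ _ _ h => ⟨h, fun _ => EqM.refl _ _ _⟩

theorem LeT.trans {m : Mt Ω} {e e' e'' : Dt Ω} (h1 : LeT m e'' e') (h2 : LeT m e' e) :
    LeT m e'' e := by
  intro m' hm γ h
  obtain ⟨h3, h4⟩ := h2 m' hm γ h
  obtain ⟨h5, h6⟩ := h1 m' hm γ h3
  exact ⟨h5, fun i => (h6 i).trans (h4 i)⟩

theorem LeT.mono {m m' : Mt Ω} {e e' : Dt Ω} (h : LeT m e' e) (hm : m' ≤ m) : LeT m' e' e :=
  fun m'' hm'' => h m'' (hm''.trans hm)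

theorem LeT.dense {m : Mt Ω} {e e' : Dt Ω} (h : Loc m fun m' => LeT m' e' e) : LeT m e' e := by
  intro m' hm γ hH
  refine ⟨(e'.H γ).reg ((h.mono hm).imp fun m'' hm'' h1 => ?_), fun i => EqM.dense
    ((h.mono hm).imp fun m'' hm'' h1 => ?_)⟩
  · exact (h1 m'' le_rfl γ ((e.H γ).mono hm'' hH)).1
  · exact (h1 m'' le_rfl γ ((e.H γ).mono hm'' hH)).2 i

theorem LeX.refl (m : Mt Ω) (e : Dt Ω) (x : Nm Ω) : LeX m e x x := fun _ _ _ _ => EqM.refl _ _ _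

theorem LeX.symm {m : Mt Ω} {e : Dt Ω} {x y : Nm Ω} (h : LeX m e y x) : LeX m e x y :=
  fun m' hm γ hH => (h m' hm γ hH).symm

theorem LeX.trans {m : Mt Ω} {e : Dt Ω} {x y w : Nm Ω} (h : LeX m e w y) (h' : LeX m e y x) :
    LeX m e w x := fun m' hm γ hH => (h m' hm γ hH).trans (h' m' hm γ hH)

theorem LeX.mono {m m' : Mt Ω} {e : Dt Ω} {x y : Nm Ω} (h : LeX m e y x) (hm : m' ≤ m) :
    LeX m' e y x := fun m'' hm'' => h m'' (hm''.trans hm)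

theorem LeX.le {m : Mt Ω} {e e' : Dt Ω} {x y : Nm Ω} (h : LeX m e' y x) (he : LeT m e' e) :
    LeX m e y x := fun m' hm γ hH => h m' hm γ (he m' hm γ hH).1

theorem LeX.dense {m : Mt Ω} {e : Dt Ω} {x y : Nm Ω} (h : Loc m fun m' => LeX m' e y x) :
    LeX m e y x := fun m' hm γ hH => EqM.dense ((h.mono hm).imp fun m'' hm'' h1 =>
  h1 m'' le_rfl γ ((e.H γ).mono hm'' hH))

theorem LeD.refl (m : Mt Ω) (e : Dt Ω) : LeD m e e := ⟨LeT.refl _ _, LeX.refl _ _ _⟩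

theorem LeD.trans {m : Mt Ω} {e e' e'' : Dt Ω} (h1 : LeD m e'' e') (h2 : LeD m e' e) :
    LeD m e'' e := ⟨h1.t.trans h2.t, (h1.x.le h2.t).trans h2.x⟩

theorem LeD.mono {m m' : Mt Ω} {e e' : Dt Ω} (h : LeD m e' e) (hm : m' ≤ m) : LeD m' e' e :=
  ⟨h.t.mono hm, h.x.mono hm⟩

theorem LeD.dense {m : Mt Ω} {e e' : Dt Ω} (h : Loc m fun m' => LeD m' e' e) : LeD m e' e :=
  ⟨LeT.dense (h.imp fun _ _ h => h.t), LeX.dense (h.imp fun _ _ h => h.x)⟩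

theorem TV.res' {m m' : Mt Ω} {e : Dt Ω} (h : TV m e) {γ γ' : Ω} (hm : m' ≤ m) (hH : e.H γ m')
    (hle : γ' ≤ γ) {x : Nm Ω} (hx : In m' γ (e.z γ) x) : In m' γ' (e.z γ') x := by
  refine In.of_eqB fun k hk => ?_
  obtain ⟨k', hk', i, hi⟩ := hx k hk
  exact ⟨k', hk', _, h.res hm hH hle i, hi.mono le_rfl hle⟩

theorem TV.rep' {m m' : Mt Ω} {e : Dt Ω} (h : TV m e) {γ γ' : Ω} (hm : m' ≤ m) (hH : e.H γ m')
    (hle : γ' ≤ γ) {x y : Nm Ω} (hy : In m' γ' (e.z γ') y) (hx : In m' γ (e.z γ) x) :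
    In m' γ (e.z γ) (glue γ' y x) := by
  refine In.of_eqB fun k hk => ?_
  obtain ⟨k', hk', i, hi⟩ := hx k hk
  obtain ⟨k'', hk'', j, hj⟩ := hy k' (hk'.1.trans hk)
  exact ⟨k'', hk''.trans hk', _, h.rep hm hH hle i j,
    EqB.glue (hj.mono le_rfl (min_le_left _ _)) (hi.mono hk'' le_rfl)⟩

theorem TV.flp' {m m' : Mt Ω} {e : Dt Ω} (h : TV m e) {γ : Ω} (hm : m' ≤ m) (hH : e.H γ m')
    {ξ : Ω} (hξ : ξ < γ) {x : Nm Ω} (hx : In m' γ (e.z γ) x) :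
    In m' γ (e.z γ) (flipAt ξ x) := by
  refine In.of_eqB fun k hk => ?_
  obtain ⟨k', hk', i, hi⟩ := hx k hk
  exact ⟨k', hk', _, h.flp hm hH ξ hξ i, hi.flipAt⟩

theorem LeT.in_iff {m m' : Mt Ω} {e e' : Dt Ω} (h : LeT m e' e) (hm : m' ≤ m) {γ : Ω}
    (hH : e.H γ m') {x : Nm Ω} : In m' γ (e'.z γ) x ↔ In m' γ (e.z γ) x := by
  obtain ⟨_, h2⟩ := h m' hm γ hH
  exact ⟨fun h3 => h3.congr_z fun i => (h2 i).symm, fun h3 => h3.congr_z h2⟩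

theorem LeT.brn {m : Mt Ω} {e e' : Dt Ω} (h : LeT m e' e) {x : Nm Ω} (hx : Brn m e' x) :
    Brn m e x := fun m' γ hm hH =>
  (h.in_iff hm hH).1 (hx m' γ hm (h m' hm γ hH).1)

theorem Hts.mono {m m' : Mt Ω} {e : Dt Ω} {δ : Ω} (h : Hts m e δ) (hm : m' ≤ m) : Hts m' e δ :=
  fun γ => ⟨fun hγ => (e.H γ).mono hm ((h γ).1 hγ), fun hγ m'' hm'' => (h γ).2 hγ m'' (hm''.trans hm)⟩

theorem Hop.mono {m m' : Mt Ω} {e : Dt Ω} {δ : Ω} (h : Hop m e δ) (hm : m' ≤ m) : Hop m' e δ :=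
  fun γ => ⟨fun hγ => (e.H γ).mono hm ((h γ).1 hγ), fun hγ m'' hm'' => (h γ).2 hγ m'' (hm''.trans hm)⟩

theorem Hts.le_of_H {m m' : Mt Ω} {e : Dt Ω} {δ γ : Ω} (h : Hts m e δ) (hm : m' ≤ m)
    (hH : e.H γ m') : γ ≤ δ := by
  by_contra hcon
  exact (h γ).2 (not_le.1 hcon) m' hm hH

theorem Hop.lt_of_H {m m' : Mt Ω} {e : Dt Ω} {δ γ : Ω} (h : Hop m e δ) (hm : m' ≤ m)
    (hH : e.H γ m') : γ < δ := by
  by_contra hcon
  exact (h γ).2 (not_lt.1 hcon) m' hm hH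

theorem Hts.uniq {m m' m'' : Mt Ω} {e : Dt Ω} {δ δ' : Ω} (h : Hts m e δ) (h' : Hts m' e δ')
    (h1 : m'' ≤ m) (h2 : m'' ≤ m') : δ = δ' :=
  le_antisymm (h'.le_of_H h2 (((h.mono h1) δ).1 le_rfl)) (h.le_of_H h1 (((h'.mono h2) δ').1 le_rfl))

/-- if `e'` extends `e` and has no more levels then `e` extends `e'` -/
theorem LeT.antisymm {m : Mt Ω} {e e' : Dt Ω} (h : LeT m e' e)
    (hH : ∀ m' ≤ m, ∀ γ, e'.H γ m' → e.H γ m') : LeT m e e' := by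
  intro m' hm γ h1
  have h2 := hH m' hm γ h1
  exact ⟨h2, fun i => ((h m' hm γ h2).2 i).symm⟩

theorem Hts.leT {m : Mt Ω} {e e' : Dt Ω} {δ : Ω} (h : LeT m e' e) (h1 : Hts m e δ)
    (h2 : Hts m e' δ) : LeT m e e' :=
  h.antisymm fun _ hm γ hγ => (e.H γ).mono hm ((h1 γ).1 (h2.le_of_H hm hγ))

/-! ### Unions -/

/-- The union of a family of tree data, each on its region. -/
noncomputable def UN {L : Type} (φ : L → Mt Ω → Prop) (e : L → Dt Ω) : Dt Ω where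
  H γ := Rg fun m => ∃ l, φ l m ∧ (e l).H γ m
  z γ i ξ := Rg fun k => ∃ l, φ l k.1 ∧ (e l).H γ k.1 ∧ (e l).z γ i ξ k
  x ξ := Rg fun k => ∃ l, φ l k.1 ∧ (∃ γ, ξ < γ ∧ (e l).H γ k.1) ∧ (e l).x ξ k

/-- comparable members -/
def Coh {L : Type} (φ : L → Mt Ω → Prop) (e : L → Dt Ω) : Prop :=
  ∀ l l' m, φ l m → φ l' m → Loc m fun m' => LeD m' (e l) (e l') ∨ LeD m' (e l') (e l)

section un

variable {L : Type} {φ : L → Mt Ω → Prop} {e : L → Dt Ω}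
  (hφ : ∀ l m m', m' ≤ m → φ l m → φ l m') (hc : Coh φ e)

include hc in
theorem Coh.z {l l' : L} {m : Mt Ω} {γ : Ω} (h1 : φ l m) (h2 : φ l' m) (h3 : (e l).H γ m)
    (h4 : (e l').H γ m) (i : Ω) : EqM m γ ((e l).z γ i) ((e l').z γ i) := by
  refine EqM.dense ((hc l l' m h1 h2).imp fun m' hm h => ?_)
  rcases h with h | h
  · exact (h.t m' le_rfl γ (((e l').H γ).mono hm h4)).2 i
  · exact ((h.t m' le_rfl γ (((e l).H γ).mono hm h3)).2 i).symm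

include hc in
theorem Coh.x {l l' : L} {m : Mt Ω} {γ : Ω} (h1 : φ l m) (h2 : φ l' m) (h3 : (e l).H γ m)
    (h4 : (e l').H γ m) : EqM m γ (e l).x (e l').x := by
  refine EqM.dense ((hc l l' m h1 h2).imp fun m' hm h => ?_)
  rcases h with h | h
  · exact h.x m' le_rfl γ (((e l').H γ).mono hm h4)
  · exact (h.x m' le_rfl γ (((e l).H γ).mono hm h3)).symm

include hφ hc in
theorem UN_z {l : L} {m : Mt Ω} {γ : Ω} (h1 : φ l m) (h2 : (e l).H γ m) (i : Ω) :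
    EqM m γ ((UN φ e).z γ i) ((e l).z γ i) := by
  intro k hk ξ hξ
  constructor
  · intro h
    refine ((e l).z γ i ξ).reg (Loc.imp h ?_)
    rintro k' hk' ⟨l', h3, h4, h5⟩
    exact (hc.z (hφ l m k'.1 (hk'.1.trans hk) h1) h3 (((e l).H γ).mono (hk'.1.trans hk) h2) h4 i
      k' le_rfl ξ hξ).2 h5
  · intro h
    exact Loc.pure fun k' hk' => ⟨l, hφ l m k'.1 (hk'.1.trans hk) h1,
      ((e l).H γ).mono (hk'.1.trans hk) h2, ((e l).z γ i ξ).mono hk' h⟩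

include hφ hc in
theorem UN_x {l : L} {m : Mt Ω} {γ : Ω} (h1 : φ l m) (h2 : (e l).H γ m)
    (hdn : ∀ l' m', φ l' m' → ∀ γ' γ'', γ' ≤ γ'' → (e l').H γ'' m' → (e l').H γ' m') :
    EqM m γ (UN φ e).x (e l).x := by
  intro k hk ξ hξ
  constructor
  · intro h
    refine ((e l).x ξ).reg (Loc.imp h ?_)
    rintro k' hk' ⟨l', h3, ⟨γ', hγ', h4⟩, h5⟩
    have h6 : φ l k'.1 := hφ l m k'.1 (hk'.1.trans hk) h1
    have h7 : (e l).H (min γ γ') k'.1 := hdn l k'.1 h6 _ _ (min_le_left _ _)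
      (((e l).H γ).mono (hk'.1.trans hk) h2)
    have h8 : (e l').H (min γ γ') k'.1 := hdn l' k'.1 h3 _ _ (min_le_right _ _) h4
    exact (hc.x h6 h3 h7 h8 k' le_rfl ξ (lt_min hξ hγ')).2 h5
  · intro h
    exact Loc.pure fun k' hk' => ⟨l, hφ l m k'.1 (hk'.1.trans hk) h1,
      ⟨γ, hξ, ((e l).H γ).mono (hk'.1.trans hk) h2⟩, ((e l).x ξ).mono hk' h⟩

include hφ hc in
/-- The union extends every member. -/
theorem UN_le {l : L} {m : Mt Ω} (h1 : φ l m)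
    (hdn : ∀ l' m', φ l' m' → ∀ γ' γ'', γ' ≤ γ'' → (e l').H γ'' m' → (e l').H γ' m') :
    LeD m (UN φ e) (e l) := by
  refine ⟨fun m' hm γ hH => ⟨Loc.pure fun m'' hm'' => ⟨l, hφ l m m'' (hm''.trans hm) h1,
    ((e l).H γ).mono hm'' hH⟩, fun i => ?_⟩, fun m' hm γ hH => ?_⟩
  · exact UN_z hφ hc (hφ l m m' hm h1) hH i
  · exact UN_x hφ hc (hφ l m m' hm h1) hH hdn

include hφ hc in
/-- The union is valid. -/
theorem UN_DV (h : ∀ l m, φ l m → DV m (e l)) (m : Mt Ω) : DV m (UN φ e) := by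
  have hdn : ∀ l' m', φ l' m' → ∀ γ' γ'', γ' ≤ γ'' → (e l').H γ'' m' → (e l').H γ' m' :=
    fun l' m' h1 γ' γ'' hle h2 => (h l' m' h1).dn le_rfl h2 hle
  have key : ∀ {m' : Mt Ω} {γ : Ω}, (UN φ e).H γ m' → Loc m' fun m'' => ∃ l, φ l m'' ∧
      (e l).H γ m'' := fun h => h
  refine ⟨⟨?_, ?_, ?_, ?_⟩, ?_⟩
  · intro m' γ γ' _ hH hle
    refine Loc.imp (key hH) ?_
    rintro m'' _ ⟨l, h1, h2⟩
    exact ⟨l, h1, hdn l m'' h1 _ _ hle h2⟩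
  · intro m' γ γ' _ hH hle i
    refine In.dense ((key hH).imp ?_)
    rintro m'' _ ⟨l, h1, h2⟩
    have h3 := (h l m'' h1).res le_rfl h2 hle i
    exact (h3.congr_z fun j => UN_z hφ hc h1 (hdn l m'' h1 _ _ hle h2) j).congr
      ((UN_z hφ hc h1 h2 i).mono le_rfl hle)
  · intro m' γ γ' _ hH hle i j
    refine In.dense ((key hH).imp ?_)
    rintro m'' _ ⟨l, h1, h2⟩
    have h3 := (h l m'' h1).rep le_rfl h2 hle i j
    refine (h3.congr_z fun j => UN_z hφ hc h1 h2 j).congr (EqM.glue ?_ (UN_z hφ hc h1 h2 i))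
    exact (UN_z hφ hc h1 (hdn l m'' h1 _ _ hle h2) j).mono le_rfl (min_le_left _ _)
  · intro m' γ _ hH ξ hξ i
    refine In.dense ((key hH).imp ?_)
    rintro m'' _ ⟨l, h1, h2⟩
    have h3 := (h l m'' h1).flp le_rfl h2 ξ hξ i
    refine (h3.congr_z fun j => UN_z hφ hc h1 h2 j).congr ?_
    exact EqM.of_eqB fun k hk => ⟨k, le_rfl, ((UN_z hφ hc h1 h2 i).eqB hk).flipAt⟩
  · intro m' γ _ hH
    refine In.dense ((key hH).imp ?_)
    rintro m'' _ ⟨l, h1, h2⟩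
    have h3 := (h l m'' h1).br m'' γ le_rfl h2
    exact (h3.congr_z fun j => UN_z hφ hc h1 h2 j).congr (UN_x hφ hc h1 h2 hdn)

include hφ hc in
/-- The union is the greatest lower bound. -/
theorem UN_glb (hdn : ∀ l' m', φ l' m' → ∀ γ' γ'', γ' ≤ γ'' → (e l').H γ'' m' → (e l').H γ' m')
    {m : Mt Ω} {e' : Dt Ω} (h : ∀ l, ∀ m' ≤ m, φ l m' → LeD m' e' (e l)) : LeD m e' (UN φ e) := by
  refine ⟨fun m' hm γ hH => ⟨?_, fun i => ?_⟩, fun m' hm γ hH => ?_⟩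
  · refine (e'.H γ).reg (Loc.imp hH ?_)
    rintro m'' hm'' ⟨l, h1, h2⟩
    exact ((h l m'' (hm''.trans hm) h1).t m'' le_rfl γ h2).1
  · refine EqM.dense (Loc.imp hH ?_)
    rintro m'' hm'' ⟨l, h1, h2⟩
    exact (((h l m'' (hm''.trans hm) h1).t m'' le_rfl γ h2).2 i).trans (UN_z hφ hc h1 h2 i).symm
  · refine EqM.dense (Loc.imp hH ?_)
    rintro m'' hm'' ⟨l, h1, h2⟩
    exact ((h l m'' (hm''.trans hm) h1).x m'' le_rfl γ h2).trans (UN_x hφ hc h1 h2 hdn).symm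

end un

end Pool.Agent.T27
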