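import Mathlib

/-!
# Measurable cardinals
-/

namespace Pool.Agent.T27

open Cardinal

/-- `κ` is a measurable cardinal: `κ` is uncountable, and there is a `κ`-complete nonprincipal
ultrafilter on `κ` (closed under intersections of fewer than `κ` sets, and containing no
singleton) -/
def MeasC (κ : Cardinal.{0}) : Prop :=
  ℵ₀ < κ ∧ ∃ U : Ultrafilter κ.ord.ToType,
    (∀ (I : Type) (B : I → Set κ.ord.ToType), #I < κ → (∀ i, B i ∈ U) → (⋂ i, B i) ∈ U) ∧
      ∀ x, {x} ∉ U

end Pool.Agent.T27
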