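import Pool.Agent.Lib_helper27.T.Tm

/-!
# The Mitchell poset, and names for subsets of `Ω`
-/

set_option linter.unusedSectionVars false

namespace Pool.Agent.T27

open Pool.Agent.Lib_helper27 Cardinal

variable {Ω : Type} [LinearOrder Ω]

/-- the conditions of the Mitchell poset -/
structure Mt (Ω : Type) [LinearOrder Ω] : Type where
  /-- the Cohen part -/
  a : Co Ω
  /-- the term part -/
  q : Tm Ω

instance : Preorder (Mt Ω) where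
  le m' m := m'.a ≤ m.a ∧ Tm.Le m'.a m'.q m.q
  le_refl m := ⟨le_rfl, Tm.Le.refl _ _⟩
  le_trans l m n h1 h2 := ⟨h1.1.trans h2.1, h1.2.trans (h2.2.mono h1.1)⟩

theorem Mt.le_def {m' m : Mt Ω} : m' ≤ m ↔ m'.a ≤ m.a ∧ Tm.Le m'.a m'.q m.q := Iff.rfl

theorem Mt.mk_le {a : Co Ω} {r q : Tm Ω} (h : Tm.Le a r q) : (⟨a, r⟩ : Mt Ω) ≤ ⟨a, q⟩ :=
  ⟨le_rfl, h⟩

theorem Mt.mk_le' {a a' : Co Ω} {q : Tm Ω} (h : a' ≤ a) : (⟨a', q⟩ : Mt Ω) ≤ ⟨a, q⟩ :=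
  ⟨h, Tm.Le.refl _ _⟩

instance : Nonempty (Mt Ω) := ⟨⟨Co.emp, Tm.one⟩⟩

/-- the part below `α` -/
noncomputable def Mt.res (α : Ω) (m : Mt Ω) : Mt Ω := ⟨m.a.res α, m.q.res α⟩

/-- `n` below `α`, `m` from `α` on -/
noncomputable def Mt.gl (α : Ω) (n m : Mt Ω) : Mt Ω := ⟨Co.gl α n.a m.a, Tm.glu α n.q m.q⟩

theorem Mt.le_res (α : Ω) (m : Mt Ω) : m ≤ m.res α := ⟨Co.le_res _ _, Tm.le_res⟩

theorem Mt.res_mono {α : Ω} {m' m : Mt Ω} (h : m' ≤ m) : m'.res α ≤ m.res α :=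
  ⟨Co.res_mono h.1, (Tm.Le.mono (Tm.res_mono h.2) le_rfl).res_a.trans (Tm.Le.refl _ _)⟩

theorem Mt.res_res {α β : Ω} {m : Mt Ω} : (m.res α).res β = m.res (min α β) := by
  show (⟨(m.a.res α).res β, (m.q.res α).res β⟩ : Mt Ω) = ⟨m.a.res (min α β), m.q.res (min α β)⟩
  rw [Co.res_res, Tm.res_res]

theorem Mt.res_res_of_le {α β : Ω} (h : α ≤ β) {m : Mt Ω} : (m.res β).res α = m.res α := by
  rw [Mt.res_res, min_eq_right h]

theorem Mt.res_res_of_le' {α β : Ω} (h : α ≤ β) {m : Mt Ω} : (m.res α).res β = m.res α := by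
  rw [Mt.res_res, min_eq_left h]

theorem Mt.gl_res {α : Ω} {n m : Mt Ω} : (Mt.gl α n m).res α = n.res α := by
  show (⟨(Co.gl α n.a m.a).res α, (Tm.glu α n.q m.q).res α⟩ : Mt Ω) = ⟨n.a.res α, n.q.res α⟩
  rw [Co.gl_res, Tm.glu_res]

theorem Mt.gl_le {α : Ω} {n m : Mt Ω} (h : n ≤ m.res α) : Mt.gl α n m ≤ m := by
  refine ⟨Co.gl_le ?_, Tm.glu_le ?_⟩
  · have := Co.res_mono (α := α) h.1
    rwa [show (m.res α).a.res α = m.a.res α from Co.res_res_of_le le_rfl] at this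
  · exact (Tm.Le.res_a h.2).mono Co.gl_le_res

theorem Mt.gl_le' {α : Ω} {n m : Mt Ω} (h : n.res α ≤ m.res α) : Mt.gl α n m ≤ m := by
  have h1 : Mt.gl α (n.res α) m = Mt.gl α n m := by
    show (⟨Co.gl α (n.a.res α) m.a, Tm.glu α (n.q.res α) m.q⟩ : Mt Ω) =
      ⟨Co.gl α n.a m.a, Tm.glu α n.q m.q⟩
    rw [Co.gl_res_left, Tm.glu_res_left]
  rw [← h1]
  exact Mt.gl_le h

theorem Mt.gl_le_left {α : Ω} {n m : Mt Ω} : Mt.gl α n m ≤ n.res α :=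
  ⟨Co.gl_le_res, Tm.glu_le_left⟩

theorem Mt.le_gl {α : Ω} {n m l : Mt Ω} (h1 : l ≤ n.res α) (h2 : l ≤ m) : l ≤ Mt.gl α n m := by
  refine ⟨Co.le_gl ?_ h2.1, Tm.le_glu h1.2 h2.2⟩
  have := Co.res_mono (α := α) h1.1
  rwa [show (n.res α).a.res α = n.a.res α from Co.res_res_of_le le_rfl] at this

/-! ### Cohen reals -/

/-- finite partial functions from `ℕ` to `2` -/
def Cn : Type := Q.Fn

instance : Preorder Cn where
  le s t := t.1 ⊆ s.1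
  le_refl _ := Finset.Subset.refl _
  le_trans _ _ _ h1 h2 := h2.trans h1

/-- the Mitchell poset and the Cohen poset -/
abbrev K (Ω : Type) [LinearOrder Ω] : Type := Mt Ω × Cn

/-- the part below `α` -/
noncomputable def kres (α : Ω) (k : K Ω) : K Ω := (k.1.res α, k.2)

theorem kres_mono {α : Ω} {k k' : K Ω} (h : k' ≤ k) : kres α k' ≤ kres α k :=
  ⟨Mt.res_mono h.1, h.2⟩

theorem le_kres {α : Ω} {k : K Ω} : k ≤ kres α k := ⟨Mt.le_res _ _, le_rfl⟩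

/-- names for subsets of `Ω` -/
abbrev Nm (Ω : Type) [LinearOrder Ω] : Type := Ω → RP (K Ω)

/-- `k` forces that `x` and `y` agree below `γ` -/
def EqB (k : K Ω) (γ : Ω) (x y : Nm Ω) : Prop := ∀ k' ≤ k, ∀ ξ < γ, (x ξ k' ↔ y ξ k')

/-- `m` forces that `x` and `y` agree below `γ` -/
def EqM (m : Mt Ω) (γ : Ω) (x y : Nm Ω) : Prop := ∀ k : K Ω, k.1 ≤ m → ∀ ξ < γ, (x ξ k ↔ y ξ k)

/-- `m` forces that `x` is, below `γ`, a member of the family `z` -/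
def In (m : Mt Ω) (γ : Ω) (z : Ω → Nm Ω) (x : Nm Ω) : Prop :=
  ∀ k : K Ω, k.1 ≤ m → ∃ k' ≤ k, ∃ i, EqB k' γ x (z i)

/-- `y` below `γ`, `x` from `γ` on -/
noncomputable def glue (γ : Ω) (y x : Nm Ω) : Nm Ω := fun ξ => if ξ < γ then y ξ else x ξ

open Classical in
/-- change the value at `ξ` -/
noncomputable def flipAt (ξ : Ω) (x : Nm Ω) : Nm Ω := fun η => if η = ξ then (x η).neg else x η

theorem glue_lt {γ ξ : Ω} (h : ξ < γ) {y x : Nm Ω} : glue γ y x ξ = y ξ := if_pos h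

theorem glue_ge {γ ξ : Ω} (h : γ ≤ ξ) {y x : Nm Ω} : glue γ y x ξ = x ξ := if_neg (not_lt.2 h)

theorem flipAt_self {ξ : Ω} {x : Nm Ω} : flipAt ξ x ξ = (x ξ).neg := if_pos rfl

theorem flipAt_ne {ξ η : Ω} (h : η ≠ ξ) {x : Nm Ω} : flipAt ξ x η = x η := if_neg h

theorem EqB.refl (k : K Ω) (γ : Ω) (x : Nm Ω) : EqB k γ x x := fun _ _ _ _ => Iff.rfl

theorem EqB.symm {k : K Ω} {γ : Ω} {x y : Nm Ω} (h : EqB k γ x y) : EqB k γ y x :=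
  fun k' hk ξ hξ => (h k' hk ξ hξ).symm

theorem EqB.trans {k : K Ω} {γ : Ω} {x y w : Nm Ω} (h : EqB k γ x y) (h' : EqB k γ y w) :
    EqB k γ x w := fun k' hk ξ hξ => (h k' hk ξ hξ).trans (h' k' hk ξ hξ)

theorem EqB.mono {k k' : K Ω} {γ γ' : Ω} {x y : Nm Ω} (h : EqB k γ x y) (hk : k' ≤ k)
    (hγ : γ' ≤ γ) : EqB k' γ' x y := fun k'' hk' ξ hξ => h k'' (hk'.trans hk) ξ (hξ.trans_le hγ)

theorem EqB.dense {k : K Ω} {γ : Ω} {x y : Nm Ω} (h : Loc k fun k' => EqB k' γ x y) :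
    EqB k γ x y := by
  intro k' hk ξ hξ
  refine RP.iff_of_loc fun k1 hk1 => ?_
  obtain ⟨k2, hk2, h2⟩ := h k1 (hk1.trans hk)
  exact ⟨k2, hk2, h2 k2 le_rfl ξ hξ, fun k3 hk3 => h2 k3 hk3 ξ hξ⟩

theorem EqM.refl (m : Mt Ω) (γ : Ω) (x : Nm Ω) : EqM m γ x x := fun _ _ _ _ => Iff.rfl

theorem EqM.symm {m : Mt Ω} {γ : Ω} {x y : Nm Ω} (h : EqM m γ x y) : EqM m γ y x :=
  fun k' hk ξ hξ => (h k' hk ξ hξ).symm

theorem EqM.trans {m : Mt Ω} {γ : Ω} {x y w : Nm Ω} (h : EqM m γ x y) (h' : EqM m γ y w) :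
    EqM m γ x w := fun k' hk ξ hξ => (h k' hk ξ hξ).trans (h' k' hk ξ hξ)

theorem EqM.mono {m m' : Mt Ω} {γ γ' : Ω} {x y : Nm Ω} (h : EqM m γ x y) (hm : m' ≤ m)
    (hγ : γ' ≤ γ) : EqM m' γ' x y := fun k hk ξ hξ => h k (hk.trans hm) ξ (hξ.trans_le hγ)

theorem EqM.eqB {m : Mt Ω} {γ : Ω} {x y : Nm Ω} (h : EqM m γ x y) {k : K Ω} (hk : k.1 ≤ m) :
    EqB k γ x y := fun k' hk' ξ hξ => h k' (hk'.1.trans hk) ξ hξ

theorem EqM.dense {m : Mt Ω} {γ : Ω} {x y : Nm Ω} (h : Loc m fun m' => EqM m' γ x y) :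
    EqM m γ x y := by
  intro k hk ξ hξ
  refine RP.iff_of_loc fun k1 hk1 => ?_
  obtain ⟨m2, hm2, h2⟩ := h k1.1 (hk1.1.trans hk)
  exact ⟨(m2, k1.2), ⟨hm2, le_rfl⟩, h2 (m2, k1.2) le_rfl ξ hξ,
    fun k3 hk3 => h2 k3 hk3.1 ξ hξ⟩

theorem EqM.of_eqB {m : Mt Ω} {γ : Ω} {x y : Nm Ω} (h : ∀ k : K Ω, k.1 ≤ m → ∃ k' ≤ k,
    EqB k' γ x y) : EqM m γ x y := by
  intro k hk ξ hξ
  refine RP.iff_of_loc fun k1 hk1 => ?_
  obtain ⟨k2, hk2, h2⟩ := h k1 (hk1.1.trans hk)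
  exact ⟨k2, hk2, h2 k2 le_rfl ξ hξ, fun k3 hk3 => h2 k3 hk3 ξ hξ⟩

/-! ### Local membership -/

theorem in_self (m : Mt Ω) (γ : Ω) (z : Ω → Nm Ω) (i : Ω) : In m γ z (z i) :=
  fun k _ => ⟨k, le_rfl, i, EqB.refl _ _ _⟩

theorem In.mono {m m' : Mt Ω} {γ : Ω} {z : Ω → Nm Ω} {x : Nm Ω} (h : In m γ z x) (hm : m' ≤ m) :
    In m' γ z x := fun k hk => h k (hk.trans hm)

/-- `x` is locally equal to members of the level -/
theorem In.loc {m : Mt Ω} {γ : Ω} {z : Ω → Nm Ω} {x : Nm Ω}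
    (h : ∀ k : K Ω, k.1 ≤ m → ∃ k' ≤ k, ∃ y m', k'.1 ≤ m' ∧ In m' γ z y ∧ EqB k' γ x y) :
    In m γ z x := by
  intro k hk
  obtain ⟨k1, hk1, y, m', hm', hy, he⟩ := h k hk
  obtain ⟨k2, hk2, i, hi⟩ := hy k1 hm'
  exact ⟨k2, hk2.trans hk1, i, (he.mono hk2 le_rfl).trans hi⟩

theorem In.dense {m : Mt Ω} {γ : Ω} {z : Ω → Nm Ω} {x : Nm Ω}
    (h : Loc m fun m' => In m' γ z x) : In m γ z x := by
  refine In.loc fun k hk => ?_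
  obtain ⟨m', hm', h1⟩ := h k.1 hk
  exact ⟨(m', k.2), ⟨hm', le_rfl⟩, x, m', le_rfl, h1, EqB.refl _ _ _⟩

theorem In.congr {m : Mt Ω} {γ : Ω} {z : Ω → Nm Ω} {x y : Nm Ω} (h : In m γ z x)
    (he : EqM m γ y x) : In m γ z y := by
  intro k hk
  obtain ⟨k', hk', i, hi⟩ := h k hk
  exact ⟨k', hk', i, (he.eqB (hk'.1.trans hk)).trans hi⟩

theorem In.congr_z {m : Mt Ω} {γ : Ω} {z z' : Ω → Nm Ω} {x : Nm Ω} (h : In m γ z x)
    (he : ∀ i, EqM m γ (z' i) (z i)) : In m γ z' x := by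
  intro k hk
  obtain ⟨k', hk', i, hi⟩ := h k hk
  exact ⟨k', hk', i, hi.trans ((he i).eqB (hk'.1.trans hk)).symm⟩

theorem In.of_eqB {m : Mt Ω} {γ : Ω} {z : Ω → Nm Ω} {x : Nm Ω}
    (h : ∀ k : K Ω, k.1 ≤ m → ∃ k' ≤ k, ∃ y, In m γ z y ∧ EqB k' γ x y) : In m γ z x := by
  refine In.loc fun k hk => ?_
  obtain ⟨k', hk', y, hy, he⟩ := h k hk
  exact ⟨k', hk', y, m, hk'.1.trans hk, hy, he⟩

theorem EqM.glue {m : Mt Ω} {γ δ : Ω} {y x y' x' : Nm Ω} (h1 : EqM m (min γ δ) y y')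
    (h2 : EqM m δ x x') : EqM m δ (glue γ y x) (glue γ y' x') := by
  intro k hk ξ hξ
  rcases lt_or_ge ξ γ with h | h
  · rw [glue_lt h, glue_lt h]
    exact h1 k hk ξ (lt_min h hξ)
  · rw [glue_ge h, glue_ge h]
    exact h2 k hk ξ hξ

theorem EqB.glue {k : K Ω} {γ δ : Ω} {y x y' x' : Nm Ω} (h1 : EqB k (min γ δ) y y')
    (h2 : EqB k δ x x') : EqB k δ (glue γ y x) (glue γ y' x') := by
  intro k' hk ξ hξ
  rcases lt_or_ge ξ γ with h | h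
  · rw [glue_lt h, glue_lt h]
    exact h1 k' hk ξ (lt_min h hξ)
  · rw [glue_ge h, glue_ge h]
    exact h2 k' hk ξ hξ

theorem EqB.flipAt {k : K Ω} {γ ξ : Ω} {x y : Nm Ω} (h : EqB k γ x y) :
    EqB k γ (flipAt ξ x) (flipAt ξ y) := by
  intro k' hk η hη
  by_cases he : η = ξ
  · subst he
    rw [flipAt_self, flipAt_self]
    exact forall_congr' fun k'' => imp_congr_right fun hk'' =>
      not_congr (h k'' (hk''.trans hk) η hη)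
  · rw [flipAt_ne he, flipAt_ne he]
    exact h k' hk η hη

end Pool.Agent.T27
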