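import Pool.Agent.Lib_helper27.T.Dat

/-!
# Codings, bounded data, operations on tree data
-/

set_option linter.unusedSectionVars false

namespace Pool.Agent.T27

open Pool.Agent.Lib_helper27 Cardinal

/-- Codings of triples and of finite sets of elements of `Ω`, and a bound `om γ` for the indices
used at the level `γ`. -/
class Cod (Ω : Type) [LinearOrder Ω] where
  /-- the least element -/
  b0 : Ω
  /-- the width of the level `γ` -/
  om : Ω → Ω
  /-- triples -/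
  tr : Ω → Ω → Ω → Ω
  /-- first component -/
  t1 : Ω → Ω
  /-- second component -/
  t2 : Ω → Ω
  /-- third component -/
  t3 : Ω → Ω
  /-- finite sets -/
  fs : Ω → Finset Ω → Ω
  /-- first component -/
  f1 : Ω → Ω
  /-- second component -/
  f2 : Ω → Finset Ω
  /-- natural numbers -/
  nt : ℕ → Ω
  /-- natural numbers -/
  tn : Ω → ℕ
  b0_le : ∀ x, b0 ≤ x
  lt_om : ∀ γ, γ < om γ
  om_mono : ∀ {γ γ'}, γ ≤ γ' → om γ ≤ om γ'
  t1_tr : ∀ a b c, t1 (tr a b c) = a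
  t2_tr : ∀ a b c, t2 (tr a b c) = b
  t3_tr : ∀ a b c, t3 (tr a b c) = c
  tr_lt : ∀ {γ a b c}, a < om γ → b < om γ → c < om γ → tr a b c < om γ
  f1_fs : ∀ i F, f1 (fs i F) = i
  f2_fs : ∀ i F, f2 (fs i F) = F
  fs_lt : ∀ {γ i F}, i < om γ → (∀ x ∈ F, x < om γ) → fs i F < om γ
  tn_nt : ∀ n, tn (nt n) = n
  nt_lt : ∀ n γ, nt n < om γ

open Cod

variable {Ω : Type} [LinearOrder Ω] [Cod Ω]

/-- the index `i` if it is smaller than the width of the level -/
def ix (γ i : Ω) : Ω := if i < om γ then i else b0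

theorem ix_lt (γ i : Ω) : ix γ i < om γ := by
  unfold ix
  split_ifs with h
  · exact h
  · exact (b0_le γ).trans_lt (lt_om γ)

theorem ix_eq {γ i : Ω} (h : i < om γ) : ix γ i = i := if_pos h

theorem ix_ge {γ i : Ω} (h : om γ ≤ i) : ix γ i = b0 := if_neg (not_lt.2 h)

theorem ix_b0 (γ : Ω) : ix γ (b0 : Ω) = b0 := by
  unfold ix
  split_ifs <;> rfl

/-- a name bounded by `β` -/
structure BdN (β : Ω) (x : Nm Ω) : Prop where
  x0 : ∀ {ξ k}, x ξ k → ξ < β
  xb : ∀ {ξ k}, x ξ k → x ξ (kres β k)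

/-- data bounded by `β` -/
structure Bd (β : Ω) (e : Dt Ω) : Prop where
  H0 : ∀ {γ m}, e.H γ m → γ < β
  Hb : ∀ {γ m}, e.H γ m → e.H γ (m.res β)
  z0 : ∀ {γ i ξ k}, e.z γ i ξ k → γ < β ∧ ξ < γ
  zb : ∀ {γ i ξ k}, e.z γ i ξ k → e.z γ i ξ (kres β k)
  zw : ∀ {γ i}, om γ ≤ i → e.z γ i = e.z γ b0
  x : BdN β e.x

/-- no largest element below `γ` -/
def Lmt (γ : Ω) : Prop := ∀ γ' < γ, ∃ γ'', γ' < γ'' ∧ γ'' < γ

/-- the members of the new level `γ`: glues of elements of the levels below `γ` and of the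
branches `b n` -/
noncomputable def capF (e : Dt Ω) (b : ℕ → Nm Ω) (γ i : Ω) : Nm Ω :=
  if t1 (ix γ i) < γ then
    glue (t1 (ix γ i)) (e.z (t1 (ix γ i)) (t2 (ix γ i))) (b (tn (t3 (ix γ i))))
  else b 0

/-- add a last level generated by the branches `b n`, if there is none -/
noncomputable def cap (e : Dt Ω) (b : ℕ → Nm Ω) : Dt Ω where
  H γ := Rg fun m => e.H γ m ∨ (Lmt γ ∧ ∀ γ' < γ, e.H γ' m)
  z γ i ξ := Rg fun k => (e.H γ k.1 ∧ e.z γ i ξ k) ∨
    ((e.H γ).neg k.1 ∧ Lmt γ ∧ (∀ γ' < γ, e.H γ' k.1) ∧ ξ < γ ∧ capF e b γ i ξ k)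
  x := e.x

open Classical in
/-- the name of a finite set -/
noncomputable def ind (F : Finset Ω) : Nm Ω := fun ξ => if ξ ∈ F then RP.top else RP.bot

/-- extend the height from `δ` to `ε` -/
noncomputable def ext (e : Dt Ω) (δ ε : Ω) : Dt Ω where
  H γ := if γ ≤ δ then e.H γ else if γ ≤ ε then RP.top else RP.bot
  z γ i ξ := if γ ≤ δ then e.z γ i ξ else if ξ < γ ∧ γ ≤ ε then
    glue δ (e.z δ (f1 (ix γ i))) (ind (f2 (ix γ i))) ξ else RP.bot
  x ξ := if ξ < δ then e.x ξ else RP.bot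

/-- the same tree with another branch -/
def Dt.wx (e : Dt Ω) (x : Nm Ω) : Dt Ω := ⟨e.H, e.z, x⟩

/-- `y` below the height of `e`, `x` above -/
noncomputable def glR (e : Dt Ω) (y x : Nm Ω) : Nm Ω := fun ξ => Rg fun k =>
  ((∃ γ, ξ < γ ∧ e.H γ k.1) ∧ y ξ k) ∨ ((∀ m' ≤ k.1, ∀ γ, ξ < γ → ¬ e.H γ m') ∧ x ξ k)

/-- `x` on the part `E`, `y` off it -/
def mixE (E : RP (K Ω)) (x y : Nm Ω) : Nm Ω := fun ξ => Rg fun k => (E k ∧ x ξ k) ∨ (E.neg k ∧ y ξ k)

/-! ### Decoding -/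

/-- `acc d w j ξ m`: the condition `m` forces that the `j`-th code is `ξ` and that it is accepted -/
noncomputable def acc (d : Ω → Dt Ω) (w : Om1 → Ω → Mt Ω → Prop) : Om1 → Ω → Mt Ω → Prop :=
  WellFounded.fix (C := fun _ => Ω → Mt Ω → Prop) (wellFounded_lt (α := Om1)) fun j ih ξ m =>
    w j ξ m ∧ DV m (d ξ) ∧
      LeD m (d ξ) (UN (L := {j' // j' < j} × Ω) (fun l m' => ih l.1.1 l.1.2 l.2 m') fun l => d l.2)

/-- the union of the data accepted before `i` -/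
noncomputable def dec (d : Ω → Dt Ω) (w : Om1 → Ω → Mt Ω → Prop) (i : Om1) : Dt Ω :=
  UN (L := {j // j < i} × Ω) (fun l m => acc d w l.1.1 l.2 m) fun l => d l.2

/-- the union of all accepted data -/
noncomputable def Dc (d : Ω → Dt Ω) (w : Om1 → Ω → Mt Ω → Prop) : Dt Ω :=
  UN (L := Om1 × Ω) (fun l m => acc d w l.1 l.2 m) fun l => d l.2

/-- the data coded by the term `q` at the coordinate `α` -/
noncomputable def EE (d : Ω → Dt Ω) (α : Ω) (q : Tm Ω) : Dt Ω := Dc d fun j ξ m => q.v α j ξ m.a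

/-- the data coded by the generic object at the coordinate `α` -/
noncomputable def EA (d : Ω → Dt Ω) (α : Ω) : Dt Ω :=
  Dc d fun j ξ m => Loc m fun m' => m'.q.v α j ξ m'.a

/-- `α` is a good coordinate for the enumeration `d` -/
structure Good (d : Ω → Dt Ω) (α : Ω) : Prop where
  act : Act α
  ne : b0 < α
  lm : Lmt α
  om : ∀ γ < α, om γ < α
  reg : RegP α
  dbd : ∀ ξ < α, ∃ β < α, Bd β (d ξ)
  dsur : ∀ β < α, ∀ e, Bd β e → ∃ ξ < α, d ξ = e

/-! ### The poset -/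

/-- The conditions: a condition of the Mitchell poset and a bounded name of a tree with a last
level. -/
structure Pc (Ω : Type) [LinearOrder Ω] [Cod Ω] : Type where
  /-- the Mitchell condition -/
  m : Mt Ω
  /-- the tree (the branch is irrelevant) -/
  e : Dt Ω
  tv : TV m e
  cl : ∃ δ, Hts m e δ
  bd : ∃ β, Bd β e

instance : Preorder (Pc Ω) where
  le p' p := p'.m ≤ p.m ∧ LeT p'.m p'.e p.e
  le_refl p := ⟨le_rfl, LeT.refl _ _⟩
  le_trans _ _ _ h1 h2 := ⟨h1.1.trans h2.1, h1.2.trans (h2.2.mono h1.1)⟩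

/-- `p` is bounded below `α` -/
def Pin (α : Ω) (p : Pc Ω) : Prop := ∃ β < α, p.m.res β = p.m ∧ Bd β p.e

end Pool.Agent.T27
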