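import Pool.Agent.Lib_helper27.T.Bas
import Pool.Agent.Lib_helper27.Q.SysF

/-!
# What it means to force that a name is a tree relation: for an arbitrary height
-/

set_option linter.unusedSectionVars false
set_option linter.unusedTactic false
set_option linter.unreachableTactic false

namespace Pool.Agent.T27

open Pool.Agent.Lib_helper27
open Fml V Cardinal Q

section

variable {P : Type} [Preorder P] {Λ : Type} [LinearOrder Λ] [WellFoundedLT Λ]

/-- `q` forces that `(γ, i)` is below `(δ, j)` -/
def RR (S : Name P) (γ : Λ) (i : Om1) (δ : Λ) (j : Om1) (q : P) : Prop :=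
  Fc q (app4 S (onm P γ) (onm P i) (onm P δ) (onm P j))

variable (Λ) in
/-- a forced tree relation -/
structure SysF (S : Name P) (p : P) : Prop where
  s1 : ∀ q ≤ p, ∀ (γ : Λ) i (δ : Λ) j, RR S γ i δ j q → γ < δ
  s2 : ∀ q ≤ p, ∀ (γ : Λ) i (δ : Λ) j (ε : Λ) k, RR S γ i δ j q → RR S δ j ε k q → RR S γ i ε k q
  s3 : ∀ q ≤ p, ∀ (γ : Λ) i (δ : Λ) j (ε : Λ) k, γ < δ → RR S γ i ε k q → RR S δ j ε k q → RR S γ i δ j q
  s4 : ∀ q ≤ p, ∀ (γ : Λ) i j (ε : Λ) k, RR S γ i ε k q → RR S γ j ε k q → i = j
  s5 : ∀ δ : Λ, Loc p fun r => ∃ j, ∀ γ < δ, Loc r fun s => ∃ i, RR S γ i δ j s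

theorem fc_isSys {S : Name P} {p : P} :
    Fc p (isSys S (oall P Om1) (oall P Λ)) ↔ SysF Λ S p := by
  have e1 : Fc p (ball (oall P Λ) fun γ => ball (oall P Om1) fun i => ball (oall P Λ) fun δ =>
      ball (oall P Om1) fun j => imp (app4 S γ i δ j) (mem γ δ)) ↔
      ∀ γ : Λ, ∀ i : Om1, ∀ δ : Λ, ∀ j : Om1,
        Fc p (imp (app4 S (onm P γ) (onm P i) (onm P δ) (onm P j)) (mem (onm P γ) (onm P δ))) := by
    refine (fc_ball_oall ?_).trans (forall_congr' fun γ => (fc_ball_oall ?_).trans
      (forall_congr' fun i => (fc_ball_oall ?_).trans (forall_congr' fun δ => fc_ball_oall ?_)))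
    all_goals
      intro _ _ _ _
      repeat' first
        | assumption
        | exact feq_refl _ _
        | with_reducible refine rl_app4 (fun x => feq_refl x _) ?_ ?_ ?_ ?_ ?_
        | with_reducible refine Fml.Rel.ball (fun x => feq_refl x _) ?_ (fun _ => ?_)
        | with_reducible refine Fml.Rel.imp ?_ ?_
        | with_reducible refine Fml.Rel.and ?_ ?_
        | with_reducible refine Fml.Rel.mem ?_ ?_
        | with_reducible refine Fml.Rel.eq ?_ ?_
  have e2 : Fc p (ball (oall P Λ) fun γ => ball (oall P Om1) fun i => ball (oall P Λ) fun δ =>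
      ball (oall P Om1) fun j => ball (oall P Λ) fun ε => ball (oall P Om1) fun k =>
        imp (and (app4 S γ i δ j) (app4 S δ j ε k)) (app4 S γ i ε k)) ↔
      ∀ γ : Λ, ∀ i : Om1, ∀ δ : Λ, ∀ j : Om1, ∀ ε : Λ, ∀ k : Om1,
        Fc p (imp (and (app4 S (onm P γ) (onm P i) (onm P δ) (onm P j))
          (app4 S (onm P δ) (onm P j) (onm P ε) (onm P k)))
            (app4 S (onm P γ) (onm P i) (onm P ε) (onm P k))) := by
    refine (fc_ball_oall ?_).trans (forall_congr' fun γ => (fc_ball_oall ?_).trans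
      (forall_congr' fun i => (fc_ball_oall ?_).trans (forall_congr' fun δ =>
      (fc_ball_oall ?_).trans (forall_congr' fun j => (fc_ball_oall ?_).trans
      (forall_congr' fun ε => fc_ball_oall ?_)))))
    all_goals
      intro _ _ _ _
      repeat' first
        | assumption
        | exact feq_refl _ _
        | with_reducible refine rl_app4 (fun x => feq_refl x _) ?_ ?_ ?_ ?_ ?_
        | with_reducible refine Fml.Rel.ball (fun x => feq_refl x _) ?_ (fun _ => ?_)
        | with_reducible refine Fml.Rel.imp ?_ ?_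
        | with_reducible refine Fml.Rel.and ?_ ?_
        | with_reducible refine Fml.Rel.mem ?_ ?_
        | with_reducible refine Fml.Rel.eq ?_ ?_
  have e3 : Fc p (ball (oall P Λ) fun γ => ball (oall P Om1) fun i => ball (oall P Λ) fun δ =>
      ball (oall P Om1) fun j => ball (oall P Λ) fun ε => ball (oall P Om1) fun k =>
        imp (and (mem γ δ) (and (app4 S γ i ε k) (app4 S δ j ε k))) (app4 S γ i δ j)) ↔
      ∀ γ : Λ, ∀ i : Om1, ∀ δ : Λ, ∀ j : Om1, ∀ ε : Λ, ∀ k : Om1,
        Fc p (imp (and (mem (onm P γ) (onm P δ))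
          (and (app4 S (onm P γ) (onm P i) (onm P ε) (onm P k))
          (app4 S (onm P δ) (onm P j) (onm P ε) (onm P k))))
            (app4 S (onm P γ) (onm P i) (onm P δ) (onm P j))) := by
    refine (fc_ball_oall ?_).trans (forall_congr' fun γ => (fc_ball_oall ?_).trans
      (forall_congr' fun i => (fc_ball_oall ?_).trans (forall_congr' fun δ =>
      (fc_ball_oall ?_).trans (forall_congr' fun j => (fc_ball_oall ?_).trans
      (forall_congr' fun ε => fc_ball_oall ?_)))))
    all_goals
      intro _ _ _ _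
      repeat' first
        | assumption
        | exact feq_refl _ _
        | with_reducible refine rl_app4 (fun x => feq_refl x _) ?_ ?_ ?_ ?_ ?_
        | with_reducible refine Fml.Rel.ball (fun x => feq_refl x _) ?_ (fun _ => ?_)
        | with_reducible refine Fml.Rel.imp ?_ ?_
        | with_reducible refine Fml.Rel.and ?_ ?_
        | with_reducible refine Fml.Rel.mem ?_ ?_
        | with_reducible refine Fml.Rel.eq ?_ ?_
  have e4 : Fc p (ball (oall P Λ) fun γ => ball (oall P Om1) fun i => ball (oall P Om1) fun j =>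
      ball (oall P Λ) fun ε => ball (oall P Om1) fun k =>
        imp (and (app4 S γ i ε k) (app4 S γ j ε k)) (eq i j)) ↔
      ∀ γ : Λ, ∀ i : Om1, ∀ j : Om1, ∀ ε : Λ, ∀ k : Om1,
        Fc p (imp (and (app4 S (onm P γ) (onm P i) (onm P ε) (onm P k))
          (app4 S (onm P γ) (onm P j) (onm P ε) (onm P k)))
            (eq (onm P i) (onm P j))) := by
    refine (fc_ball_oall ?_).trans (forall_congr' fun γ => (fc_ball_oall ?_).trans
      (forall_congr' fun i => (fc_ball_oall ?_).trans (forall_congr' fun δ =>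
      (fc_ball_oall ?_).trans (forall_congr' fun j => fc_ball_oall ?_))))
    all_goals
      intro _ _ _ _
      repeat' first
        | assumption
        | exact feq_refl _ _
        | with_reducible refine rl_app4 (fun x => feq_refl x _) ?_ ?_ ?_ ?_ ?_
        | with_reducible refine Fml.Rel.ball (fun x => feq_refl x _) ?_ (fun _ => ?_)
        | with_reducible refine Fml.Rel.imp ?_ ?_
        | with_reducible refine Fml.Rel.and ?_ ?_
        | with_reducible refine Fml.Rel.mem ?_ ?_
        | with_reducible refine Fml.Rel.eq ?_ ?_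
  have e5 : Fc p (ball (oall P Λ) fun δ => bex (oall P Om1) fun j => ball δ fun γ =>
      bex (oall P Om1) fun i => app4 S γ i δ j) ↔
      ∀ δ : Λ, Loc p fun r => ∃ j : Om1, ∀ γ : Λ, γ < δ → Loc r fun s => ∃ i : Om1,
        Fc s (app4 S (onm P γ) (onm P i) (onm P δ) (onm P j)) := by
    refine (fc_ball_oall ?_).trans (forall_congr' fun δ => (fc_bex_oall ?_).trans ?_)
    rotate_left 2
    · have key : ∀ (r : P) (j : Om1), Fc r (ball (onm P δ) fun γ =>
          bex (oall P Om1) fun i => app4 S γ i (onm P δ) (onm P j)) ↔ ∀ γ : Λ, γ < δ →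
          Loc r fun s => ∃ i : Om1, Fc s (app4 S (onm P γ) (onm P i) (onm P δ) (onm P j)) := by
        intro r j
        refine (fc_ball_onm ?_).trans (forall_congr' fun γ => imp_congr_right fun hγ =>
          fc_bex_oall ?_)
        all_goals
          intro _ _ _ _
          repeat' first
            | assumption
            | exact feq_refl _ _
            | with_reducible refine rl_app4 (fun x => feq_refl x _) ?_ ?_ ?_ ?_ ?_
            | with_reducible refine Fml.Rel.ball (fun x => feq_refl x _) ?_ (fun _ => ?_)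
            | with_reducible refine Fml.Rel.bex (fun x => feq_refl x _) ?_ (fun _ => ?_)
      simp only [key]
    all_goals
      intro _ _ _ _
      repeat' first
        | assumption
        | exact feq_refl _ _
        | with_reducible refine rl_app4 (fun x => feq_refl x _) ?_ ?_ ?_ ?_ ?_
        | with_reducible refine Fml.Rel.ball (fun x => feq_refl x _) ?_ (fun _ => ?_)
        | with_reducible refine Fml.Rel.bex (fun x => feq_refl x _) ?_ (fun _ => ?_)
  constructor
  · rintro ⟨h1, h2, h3, h4, h5⟩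
    refine ⟨?_, ?_, ?_, ?_, e5.1 h5⟩
    · intro q hq γ i δ j h
      exact onm_mem_iff.1 ((forces_imp nf_basic).1 (e1.1 h1 γ i δ j) q hq h)
    · intro q hq γ i δ j ε k h h'
      exact (forces_imp nf_basic).1 (e2.1 h2 γ i δ j ε k) q hq ⟨h, h'⟩
    · intro q hq γ i δ j ε k hγ h h'
      exact (forces_imp nf_basic).1 (e3.1 h3 γ i δ j ε k) q hq ⟨onm_mem hγ q, h, h'⟩
    · intro q hq γ i j ε k h h'
      exact onm_inj ((forces_imp nf_basic).1 (e4.1 h4 γ i j ε k) q hq ⟨h, h'⟩)
  · rintro ⟨h1, h2, h3, h4, h5⟩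
    refine ⟨e1.2 ?_, e2.2 ?_, e3.2 ?_, e4.2 ?_, e5.2 h5⟩
    · exact fun γ i δ j => (forces_imp nf_basic).2 fun q hq h => onm_mem (h1 q hq γ i δ j h) q
    · exact fun γ i δ j ε k => (forces_imp nf_basic).2 fun q hq h =>
        h2 q hq γ i δ j ε k h.1 h.2
    · exact fun γ i δ j ε k => (forces_imp nf_basic).2 fun q hq h =>
        h3 q hq γ i δ j ε k (onm_mem_iff.1 h.1) h.2.1 h.2.2
    · intro γ i j ε k
      refine (forces_imp nf_basic).2 fun q hq h => ?_
      rw [h4 q hq γ i j ε k h.1 h.2]
      exact feq_refl _ q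

/-- `q` forces that `b` takes the value `i` at `γ` -/
def BB (b : Name P) (γ : Λ) (i : Om1) (q : P) : Prop := Fc q (app b (onm P γ) (onm P i))

/-- the name of a branch -/
noncomputable def brName (Q : Λ × Om1 → P → Prop) : Name P :=
  mkFn (Λ × Om1) (fun x => onm P x.1) (fun x => onm P x.2) Q

theorem bb_brName {Q : Λ × Om1 → P → Prop} (hQ : Down Q) {γ : Λ} {i : Om1} {p : P} :
    BB (brName Q) γ i p ↔ Loc p (Q (γ, i)) := by
  refine (fc_app hQ).trans ⟨fun h => h.imp ?_, fun h => h.imp ?_⟩
  · rintro q _ ⟨⟨γ', i'⟩, h1, h2, h3⟩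
    rw [onm_inj h2, onm_inj h3]
    exact h1
  · intro q _ h
    exact ⟨_, h, feq_refl _ _, feq_refl _ _⟩

theorem fc_isBr_of {S : Name P} {Q : Λ × Om1 → P → Prop} (hQ : Down Q) {p : P}
    (h1 : ∀ γ, Loc p fun r => ∃ i, Q (γ, i) r)
    (h2 : ∀ q ≤ p, ∀ γ i j, Q (γ, i) q → Q (γ, j) q → i = j)
    (h3 : ∀ q ≤ p, ∀ γ i δ j, γ < δ → Q (γ, i) q → Q (δ, j) q → RR S γ i δ j q) :
    Fc p (isBr S (oall P Om1) (oall P Λ) (brName Q)) := by
  refine ⟨fc_isFunc hQ ?_ ?_ ?_, ?_⟩
  · intro x r _ _
    exact ⟨onm_mem_oall _ r, onm_mem_oall _ r⟩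
  · intro x q hq hx
    refine (fmem_oall.1 hx).bind ?_
    rintro r hr ⟨γ, he⟩
    refine ((h1 γ).mono (hr.trans hq)).imp ?_
    rintro s hs ⟨i, hi⟩
    exact ⟨(γ, i), hi, feq_mono hs he⟩
  · rintro ⟨γ, i⟩ ⟨γ', j⟩ r hr hi hj he
    obtain rfl := onm_inj he
    rw [h2 r hr γ i j hi hj]
    exact feq_refl _ r
  · have key : ∀ q ≤ p, ∀ (γ : Λ) i (δ : Λ) j, γ < δ → BB (brName Q) γ i q → BB (brName Q) δ j q →
        RR S γ i δ j q := by
      intro q hq γ i δ j hγ hi hj
      rw [bb_brName hQ] at hi hj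
      refine Forces.dense nf_basic ?_
      refine hi.bind fun r hr h4 => (hj.mono hr).imp fun s hs h5 => ?_
      exact h3 s (hs.trans (hr.trans hq)) γ i δ j hγ (hQ _ _ _ hs h4) h5
    have e : Fc p (ball (oall P Λ) fun γ => ball (oall P Λ) fun δ => ball (oall P Om1) fun i =>
        ball (oall P Om1) fun j => imp (and (mem γ δ) (and (app (brName Q) γ i)
        (app (brName Q) δ j))) (app4 S γ i δ j)) ↔ ∀ γ δ : Λ, ∀ i j : Om1,
        Fc p (imp (and (mem (onm P γ) (onm P δ)) (and (app (brName Q) (onm P γ) (onm P i))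
        (app (brName Q) (onm P δ) (onm P j)))) (app4 S (onm P γ) (onm P i) (onm P δ)
        (onm P j))) := by
      refine (fc_ball_oall ?_).trans (forall_congr' fun γ => (fc_ball_oall ?_).trans
        (forall_congr' fun i => (fc_ball_oall ?_).trans (forall_congr' fun δ => fc_ball_oall ?_)))
      all_goals
        intro _ _ _ _
        repeat' first
          | assumption
          | exact feq_refl _ _
          | with_reducible refine rl_app4 (fun x => feq_refl x _) ?_ ?_ ?_ ?_ ?_
          | with_reducible refine Fml.Rel.app (fun x => feq_refl x _) ?_ ?_ ?_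
          | with_reducible refine Fml.Rel.ball (fun x => feq_refl x _) ?_ (fun _ => ?_)
          | with_reducible refine Fml.Rel.imp ?_ ?_
          | with_reducible refine Fml.Rel.and ?_ ?_
          | with_reducible refine Fml.Rel.mem ?_ ?_
    refine e.2 fun γ δ i j => (forces_imp nf_basic).2 fun q hq h => ?_
    exact key q hq γ i δ j (onm_mem_iff.1 h.1) h.2.1 h.2.2

end

end Pool.Agent.T27
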