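import Pool.Agent.Lib_helper27.T.Co

/-!
# The term conditions
-/

set_option linter.unusedSectionVars false

namespace Pool.Agent.T27

open Pool.Agent.Lib_helper27 Cardinal

/-! ### `ω₁` -/

/-- the least element -/
noncomputable def bot1 : Om1 := (wellFounded_lt (α := Om1)).min Set.univ ⟨Classical.arbitrary Om1, trivial⟩

theorem bot1_le (i : Om1) : bot1 ≤ i :=
  not_lt.1 ((wellFounded_lt (α := Om1)).not_lt_min Set.univ (x := i) trivial)

theorem countable_iio1 (i : Om1) : (Set.Iio i).Countable := by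
  have h := mk_Iio_lt (α := Om1) i (by simp)
  have h1 : #Om1 = aleph 1 := Q.mk_om1
  have h2 : (aleph 1 : Cardinal.{0}) = Order.succ ℵ₀ := by simp
  have h3 := Order.lt_succ_iff.1 (h.trans_eq (h1.trans h2))
  exact Set.countable_coe_iff.1 (Cardinal.mk_le_aleph0_iff.1 h3)

theorem bdd1 {ι : Type} [Countable ι] (f : ι → Om1) : ∃ b, ∀ i, f i < b := by
  by_contra hcon
  push Not at hcon
  have h1 : (Set.univ : Set Om1) ⊆ ⋃ i, Set.Iic (f i) := by
    intro x _
    obtain ⟨i, hi⟩ := hcon x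
    exact Set.mem_iUnion.2 ⟨i, hi⟩
  have h2 : (Set.univ : Set Om1).Countable := by
    refine Set.Countable.mono h1 (Set.countable_iUnion fun i => ?_)
    have h3 : Set.Iic (f i) = insert (f i) (Set.Iio (f i)) := by
      ext x
      simp [le_iff_eq_or_lt]
    rw [h3]
    exact (countable_iio1 _).insert _
  have h4 : #Om1 = aleph 1 := Q.mk_om1
  have h5 : #Om1 ≤ ℵ₀ := by
    rw [← mk_univ]
    exact Cardinal.mk_le_aleph0_iff.2 (Set.countable_coe_iff.2 h2)
  rw [h4] at h5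
  simp at h5

/-- the least upper bound of a countable family -/
noncomputable def lub1 {ι : Type} [Countable ι] (f : ι → Om1) : Om1 :=
  (wellFounded_lt (α := Om1)).min {b | ∀ i, f i ≤ b} (by
    obtain ⟨b, hb⟩ := bdd1 f
    exact ⟨b, fun i => (hb i).le⟩)

theorem le_lub1 {ι : Type} [Countable ι] (f : ι → Om1) (i : ι) : f i ≤ lub1 f :=
  (wellFounded_lt (α := Om1)).min_mem {b | ∀ i, f i ≤ b} _ i

theorem lt_lub1 {ι : Type} [Countable ι] {f : ι → Om1} {x : Om1} (h : x < lub1 f) :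
    ∃ i, x < f i := by
  by_contra hcon
  push Not at hcon
  exact (wellFounded_lt (α := Om1)).not_lt_min {b | ∀ i, f i ≤ b} (x := x) hcon h

/-- the successor -/
noncomputable def sc (i : Om1) : Om1 :=
  (wellFounded_lt (α := Om1)).min {b | i < b} (by
    obtain ⟨b, hb⟩ := bdd1 (ι := Unit) fun _ => i
    exact ⟨b, hb ()⟩)

theorem lt_sc {i j : Om1} : i < sc j ↔ i ≤ j := by
  constructor
  · intro h
    by_contra hcon
    exact (wellFounded_lt (α := Om1)).not_lt_min {b | j < b} (x := i) (not_le.1 hcon) h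
  · intro h
    exact h.trans_lt ((wellFounded_lt (α := Om1)).min_mem {b | j < b} _)

/-! ### Term conditions -/

variable {Ω : Type} [LinearOrder Ω]

/-- A term condition: at every coordinate `β` a countable sequence of names (depending only on the
Cohen part below some `β' < β`) of partial values below `β'`. -/
structure Tm (Ω : Type) [LinearOrder Ω] : Type where
  /-- lengths -/
  len : Ω → Om1
  /-- `v β i ξ a`: the condition `a` forces that the `i`-th value at `β` is `ξ` -/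
  v : Ω → Om1 → Ω → RP (Co Ω)
  cnt : {β | ∃ i, i < len β}.Countable
  uni : ∀ {β i ξ ξ' a}, v β i ξ a → v β i ξ' a → ξ = ξ'
  out : ∀ {β i ξ a}, v β i ξ a → i < len β
  bd : ∀ {β}, (∃ i, i < len β) → Act β ∧ ∃ β' < β, ∀ i ξ a, v β i ξ a → ξ < β' ∧ v β i ξ (a.res β')

theorem Tm.ext' {q r : Tm Ω} (h1 : ∀ β, q.len β = r.len β)
    (h2 : ∀ β i ξ a, q.v β i ξ a ↔ r.v β i ξ a) : q = r := by
  cases q with
  | mk l v _ _ _ _ =>
    cases r with
    | mk l' v' _ _ _ _ =>
      have e1 : l = l' := funext h1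
      have e2 : v = v' := by
        funext β i ξ
        exact RP.ext fun a => h2 β i ξ a
      subst e1
      subst e2
      rfl

theorem Tm.based (q : Tm Ω) {β : Ω} {i : Om1} {ξ : Ω} {a : Co Ω} :
    q.v β i ξ (a.res β) ↔ q.v β i ξ a := by
  constructor
  · exact (q.v β i ξ).mono (Co.le_res β a)
  · intro h
    obtain ⟨_, β', hβ', h1⟩ := q.bd ⟨i, q.out h⟩
    refine (q.v β i ξ).mono ?_ (h1 i ξ a h).2
    rw [← Co.res_res_of_le hβ'.le]
    exact Co.le_res _ _

/-- `r` extends `q`, as forced by `a` -/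
def Tm.Le (a : Co Ω) (r q : Tm Ω) : Prop :=
  ∀ β, q.len β ≤ r.len β ∧ ∀ i < q.len β, ∀ ξ, ∀ a' ≤ a, (r.v β i ξ a' ↔ q.v β i ξ a')

theorem Tm.Le.refl (a : Co Ω) (q : Tm Ω) : Tm.Le a q q := fun _ => ⟨le_rfl, fun _ _ _ _ _ => Iff.rfl⟩

theorem Tm.Le.trans {a : Co Ω} {p q r : Tm Ω} (h1 : Tm.Le a r q) (h2 : Tm.Le a q p) :
    Tm.Le a r p := fun β => ⟨(h2 β).1.trans (h1 β).1, fun i hi ξ a' ha' =>
  ((h1 β).2 i (hi.trans_le (h2 β).1) ξ a' ha').trans ((h2 β).2 i hi ξ a' ha')⟩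

theorem Tm.Le.mono {a b : Co Ω} {q r : Tm Ω} (h : Tm.Le a r q) (hb : b ≤ a) : Tm.Le b r q :=
  fun β => ⟨(h β).1, fun i hi ξ a' ha' => (h β).2 i hi ξ a' (ha'.trans hb)⟩

theorem Tm.Le.of_emp {a : Co Ω} {q r : Tm Ω} (h : Tm.Le Co.emp r q) : Tm.Le a r q :=
  h.mono (Co.le_emp a)

/-- at the coordinate `β` only the Cohen part below `β` matters -/
theorem Tm.Le.at {a : Co Ω} {q r : Tm Ω} (h : Tm.Le a r q) {β : Ω} {i : Om1} (hi : i < q.len β)
    {ξ : Ω} {a' : Co Ω} (ha' : a' ≤ a.res β) : r.v β i ξ a' ↔ q.v β i ξ a' := by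
  have h1 : (a'.res β) ≤ a.res β := by
    have := Co.res_mono (α := β) ha'
    rwa [Co.res_res_of_le le_rfl] at this
  have h2 := (h β).2 i hi ξ (Co.gl β a' a) (Co.gl_le h1)
  rw [← r.based, ← q.based, Co.gl_res, r.based, q.based] at h2
  exact h2

/-- the trivial term -/
noncomputable def Tm.one : Tm Ω where
  len _ := bot1
  v _ _ _ := RP.bot
  cnt := by
    have : {β : Ω | ∃ i, i < bot1} = ∅ := by
      ext β
      simp [bot1_le]
    rw [this]
    exact Set.countable_empty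
  uni h := h.elim
  out h := h.elim
  bd h := by
    obtain ⟨i, hi⟩ := h
    exact absurd hi (not_lt.2 (bot1_le i))

/-- the term `n` below `α`, the term `q` from `α` on -/
noncomputable def Tm.glu (α : Ω) (n q : Tm Ω) : Tm Ω where
  len β := if β < α then n.len β else q.len β
  v β := if β < α then n.v β else q.v β
  cnt := by
    refine (n.cnt.union q.cnt).mono ?_
    rintro β ⟨i, hi⟩
    split_ifs at hi
    · exact Or.inl ⟨i, hi⟩
    · exact Or.inr ⟨i, hi⟩
  uni := by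
    intro β i ξ ξ' a h h'
    split_ifs at h h'
    · exact n.uni h h'
    · exact q.uni h h'
  out := by
    intro β i ξ a h
    split_ifs at h ⊢
    · exact n.out h
    · exact q.out h
  bd := by
    intro β h
    split_ifs at h ⊢ with hβ
    · exact n.bd h
    · exact q.bd h

theorem Tm.glu_len {α β : Ω} {n q : Tm Ω} :
    (Tm.glu α n q).len β = if β < α then n.len β else q.len β := rfl

theorem Tm.glu_v {α β : Ω} {n q : Tm Ω} :
    (Tm.glu α n q).v β = if β < α then n.v β else q.v β := rfl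

/-- the part below `α` -/
noncomputable def Tm.res (α : Ω) (q : Tm Ω) : Tm Ω := Tm.glu α q Tm.one

theorem Tm.res_len {α β : Ω} {q : Tm Ω} :
    (q.res α).len β = if β < α then q.len β else bot1 := rfl

theorem Tm.res_len_lt {α β : Ω} {q : Tm Ω} (h : β < α) : (q.res α).len β = q.len β := if_pos h

theorem Tm.res_v_lt {α β : Ω} {q : Tm Ω} (h : β < α) : (q.res α).v β = q.v β := if_pos h

theorem Tm.glu_res {α : Ω} {n q : Tm Ω} : (Tm.glu α n q).res α = n.res α := by
  refine Tm.ext' (fun β => ?_) fun β i ξ a => ?_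
  · simp only [Tm.res, Tm.glu_len]
    split_ifs <;> rfl
  · simp only [Tm.res, Tm.glu_v]
    split_ifs <;> rfl

theorem Tm.res_res {α β : Ω} {q : Tm Ω} : (q.res α).res β = q.res (min α β) := by
  refine Tm.ext' (fun γ => ?_) fun γ i ξ a => ?_
  · simp only [Tm.res, Tm.glu_len, lt_min_iff]
    split_ifs <;> simp_all
  · simp only [Tm.res, Tm.glu_v, lt_min_iff]
    split_ifs <;> simp_all

theorem Tm.res_res_of_le {α β : Ω} (h : α ≤ β) {q : Tm Ω} : (q.res β).res α = q.res α := by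
  rw [Tm.res_res, min_eq_right h]

theorem Tm.glu_self {α : Ω} {q : Tm Ω} : Tm.glu α q q = q := by
  refine Tm.ext' (fun β => ?_) fun β i ξ a => ?_
  · simp only [Tm.glu_len]
    split_ifs <;> rfl
  · simp only [Tm.glu_v]
    split_ifs <;> rfl

theorem Tm.glu_res_left {α : Ω} {n q : Tm Ω} : Tm.glu α (n.res α) q = Tm.glu α n q := by
  refine Tm.ext' (fun β => ?_) fun β i ξ a => ?_
  · simp only [Tm.res, Tm.glu_len]
    split_ifs <;> rfl
  · simp only [Tm.res, Tm.glu_v]
    split_ifs <;> rfl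

theorem Tm.le_res {a : Co Ω} {α : Ω} {q : Tm Ω} : Tm.Le a q (q.res α) := by
  intro β
  rw [Tm.res_len]
  split_ifs with h
  · rw [Tm.res_v_lt h]
    exact ⟨le_rfl, fun _ _ _ _ _ => Iff.rfl⟩
  · exact ⟨bot1_le _, fun i hi => absurd hi (not_lt.2 (bot1_le i))⟩

theorem Tm.res_mono {a : Co Ω} {α : Ω} {r q : Tm Ω} (h : Tm.Le a r q) :
    Tm.Le a (r.res α) (q.res α) := by
  intro β
  rw [Tm.res_len, Tm.res_len]
  split_ifs with hβ
  · rw [Tm.res_v_lt hβ, Tm.res_v_lt hβ]
    exact h β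
  · exact ⟨bot1_le _, fun i hi => absurd hi (not_lt.2 (bot1_le i))⟩

theorem Tm.Le.res_a {a : Co Ω} {α : Ω} {r q : Tm Ω} (h : Tm.Le a r (q.res α)) :
    Tm.Le (a.res α) r (q.res α) := by
  intro β
  refine ⟨(h β).1, fun i hi ξ a' ha' => ?_⟩
  have hβ : β < α := by
    by_contra hcon
    rw [Tm.res_len, if_neg hcon] at hi
    exact absurd hi (not_lt.2 (bot1_le i))
  have h1 : a'.res β ≤ a.res β := by
    have := Co.res_mono (α := β) ha'
    rwa [Co.res_res_of_le hβ.le] at this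
  have h2 := h.at hi (ξ := ξ) h1
  rwa [r.based, (q.res α).based] at h2

theorem Tm.glu_le {a : Co Ω} {α : Ω} {n q : Tm Ω} (h : Tm.Le a n (q.res α)) :
    Tm.Le a (Tm.glu α n q) q := by
  intro β
  rw [Tm.glu_len, Tm.glu_v]
  split_ifs with hβ
  · have := h β
    rwa [Tm.res_len_lt hβ, Tm.res_v_lt hβ] at this
  · exact ⟨le_rfl, fun _ _ _ _ _ => Iff.rfl⟩

theorem Tm.glu_le_left {a : Co Ω} {α : Ω} {n q : Tm Ω} : Tm.Le a (Tm.glu α n q) (n.res α) := by
  have := Tm.le_res (a := a) (α := α) (q := Tm.glu α n q)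
  rwa [Tm.glu_res] at this

theorem Tm.le_glu {a : Co Ω} {α : Ω} {n q r : Tm Ω} (h1 : Tm.Le a r (n.res α))
    (h2 : Tm.Le a r q) : Tm.Le a r (Tm.glu α n q) := by
  intro β
  rw [Tm.glu_len, Tm.glu_v]
  split_ifs with hβ
  · have := h1 β
    rwa [Tm.res_len_lt hβ, Tm.res_v_lt hβ] at this
  · exact h2 β

/-! ### Mixing -/

/-- `r` where `a` holds, `q` where it fails -/
noncomputable def Tm.mix (a : Co Ω) (r q : Tm Ω) : Tm Ω where
  len β := max (q.len β) (r.len β)
  v β i ξ := Rg fun a' => (a' ≤ a.res β ∧ r.v β i ξ a') ∨ (¬ Co.Cp a' (a.res β) ∧ q.v β i ξ a')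
  cnt := by
    refine (q.cnt.union r.cnt).mono ?_
    rintro β ⟨i, hi⟩
    rcases lt_max_iff.1 hi with h | h
    · exact Or.inl ⟨i, h⟩
    · exact Or.inr ⟨i, h⟩
  uni := by
    intro β i ξ ξ' c h h'
    obtain ⟨d, hd, h1⟩ := h.exists
    obtain ⟨e, he, h2⟩ := h' d hd
    rcases h1 with ⟨h1, h3⟩ | ⟨h1, h3⟩ <;> rcases h2 with ⟨h2, h4⟩ | ⟨h2, h4⟩
    · exact r.uni ((r.v β i ξ).mono he h3) h4
    · exact (h2 (Co.cp_of_le le_rfl (he.trans h1))).elim
    · exact (h1 (Co.cp_of_le he h2)).elim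
    · exact q.uni ((q.v β i ξ).mono he h3) h4
  out := by
    intro β i ξ c h
    obtain ⟨d, _, h1⟩ := h.exists
    rcases h1 with ⟨_, h3⟩ | ⟨_, h3⟩
    · exact (r.out h3).trans_le (le_max_right _ _)
    · exact (q.out h3).trans_le (le_max_left _ _)
  bd := by
    rintro β ⟨i, hi⟩
    -- a bound for each of the two terms
    have key : ∀ p : Tm Ω, Act β → (∃ γ, γ < β) → ∃ β' < β, ∀ i ξ a, p.v β i ξ a →
        ξ < β' ∧ p.v β i ξ (a.res β') := by
      intro p hA hne
      by_cases hp : ∃ i, i < p.len β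
      · exact (p.bd hp).2
      · obtain ⟨γ, hγ⟩ := hne
        exact ⟨γ, hγ, fun i ξ a h => (hp ⟨i, p.out h⟩).elim⟩
    have hA : Act β ∧ ∃ γ, γ < β := by
      rcases lt_max_iff.1 hi with h | h
      · obtain ⟨h1, γ, hγ, _⟩ := q.bd ⟨i, h⟩
        exact ⟨h1, γ, hγ⟩
      · obtain ⟨h1, γ, hγ, _⟩ := r.bd ⟨i, h⟩
        exact ⟨h1, γ, hγ⟩
    obtain ⟨β1, hβ1, h1⟩ := key q hA.1 hA.2
    obtain ⟨β2, hβ2, h2⟩ := key r hA.1 hA.2
    obtain ⟨β3, hβ3, h3⟩ := Co.exists_res_eq hA.1 hA.2 a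
    refine ⟨hA.1, max (max β1 β2) β3, max_lt (max_lt hβ1 hβ2) hβ3, ?_⟩
    intro j ξ c hc
    set δ := max (max β1 β2) β3 with hδ
    have hd1 : β1 ≤ δ := (le_max_left _ _).trans (le_max_left _ _)
    have hd2 : β2 ≤ δ := (le_max_right _ _).trans (le_max_left _ _)
    have hd3 : β3 ≤ δ := le_max_right _ _
    constructor
    · obtain ⟨d, _, h⟩ := hc.exists
      rcases h with ⟨_, h⟩ | ⟨_, h⟩
      · exact (h2 _ _ _ h).1.trans_le hd2
      · exact (h1 _ _ _ h).1.trans_le hd1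
    · refine Rg_based (fun b => ?_) hc
      have e1 : b ≤ a.res β ↔ b.res δ ≤ a.res β := by
        rw [h3]
        constructor
        · intro h
          have := Co.res_mono (α := δ) h
          rwa [Co.res_res_of_le' hd3] at this
        · intro h
          exact (Co.le_res δ b).trans h
      have e2 : Co.Cp b (a.res β) ↔ Co.Cp (b.res δ) (a.res β) := by
        rw [h3]
        constructor
        · intro h
          exact h.mono (Co.le_res δ b) le_rfl
        · intro h x c d hb ha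
          have hx : x < β3 := (Co.res_some.1 ha).1
          exact h x c d (Co.res_some.2 ⟨hx.trans_le hd3, hb⟩) ha
      have e3 : r.v β j ξ b ↔ r.v β j ξ (b.res δ) := by
        constructor
        · intro h
          refine (r.v β j ξ).mono ?_ (h2 _ _ _ h).2
          rw [← Co.res_res_of_le hd2]
          exact Co.le_res _ _
        · exact (r.v β j ξ).mono (Co.le_res _ _)
      have e4 : q.v β j ξ b ↔ q.v β j ξ (b.res δ) := by
        constructor
        · intro h
          refine (q.v β j ξ).mono ?_ (h1 _ _ _ h).2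
          rw [← Co.res_res_of_le hd1]
          exact Co.le_res _ _
        · exact (q.v β j ξ).mono (Co.le_res _ _)
      rw [e1, e2, e3, e4]

theorem Tm.mix_len {a : Co Ω} {r q : Tm Ω} {β : Ω} :
    (Tm.mix a r q).len β = max (q.len β) (r.len β) := rfl

theorem Tm.mix_on {a : Co Ω} {r q : Tm Ω} {β : Ω} {i : Om1} {ξ : Ω} {a' : Co Ω}
    (h : a' ≤ a.res β) : (Tm.mix a r q).v β i ξ a' ↔ r.v β i ξ a' := by
  constructor
  · intro h1
    refine (r.v β i ξ).reg (Loc.imp h1 ?_)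
    rintro b hb (⟨_, h2⟩ | ⟨h2, _⟩)
    · exact h2
    · exact (h2 (Co.cp_of_le le_rfl (hb.trans h))).elim
  · intro h1
    exact Loc.pure fun b hb => Or.inl ⟨hb.trans h, (r.v β i ξ).mono hb h1⟩

theorem Tm.mix_off {a : Co Ω} {r q : Tm Ω} {β : Ω} {i : Om1} {ξ : Ω} {a' : Co Ω}
    (h : ¬ Co.Cp a' (a.res β)) : (Tm.mix a r q).v β i ξ a' ↔ q.v β i ξ a' := by
  constructor
  · intro h1
    refine (q.v β i ξ).reg (Loc.imp h1 ?_)
    rintro b hb (⟨h2, _⟩ | ⟨_, h2⟩)
    · exact (h (Co.cp_of_le hb h2)).elim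
    · exact h2
  · intro h1
    exact Loc.pure fun b hb => Or.inr ⟨fun h2 => h (h2.mono hb le_rfl), (q.v β i ξ).mono hb h1⟩

/-- one may decide whether one is on the part `a` or off it -/
theorem Co.on_off (a b : Co Ω) : ∃ c ≤ b, c ≤ a ∨ ¬ Co.Cp c a := by
  by_cases h : Co.Cp b a
  · obtain ⟨c, h1, h2⟩ := Co.cp_iff.1 h
    exact ⟨c, h1, Or.inl h2⟩
  · exact ⟨b, le_rfl, Or.inr h⟩

theorem Tm.mix_le {a : Co Ω} {r q : Tm Ω} (h : Tm.Le a r q) : Tm.Le Co.emp (Tm.mix a r q) q := by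
  intro β
  refine ⟨le_max_left _ _, fun i hi ξ a' _ => ?_⟩
  refine RP.iff_of_loc fun b _ => ?_
  obtain ⟨c, hc, h1⟩ := Co.on_off (a.res β) b
  have key : ∀ d ≤ c, ((Tm.mix a r q).v β i ξ d ↔ q.v β i ξ d) := by
    intro d hd
    rcases h1 with h1 | h1
    · rw [Tm.mix_on (hd.trans h1)]
      exact h.at hi (hd.trans h1)
    · exact Tm.mix_off fun h2 => h1 (h2.mono hd le_rfl)
  exact ⟨c, hc, key c le_rfl, key⟩

theorem Tm.mix_eq1 {a : Co Ω} {r q : Tm Ω} (h : Tm.Le a r q) : Tm.Le a (Tm.mix a r q) r := by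
  intro β
  refine ⟨le_max_right _ _, fun i hi ξ a' ha' => ?_⟩
  exact Tm.mix_on (ha'.trans (Co.le_res _ _))

theorem Tm.mix_eq2 {a : Co Ω} {r q : Tm Ω} (h : Tm.Le a r q) : Tm.Le a r (Tm.mix a r q) := by
  intro β
  refine ⟨max_le (h β).1 le_rfl, fun i hi ξ a' ha' => ?_⟩
  exact (Tm.mix_on (ha'.trans (Co.le_res _ _))).symm

theorem Tm.mix_res {a : Co Ω} {r q : Tm Ω} {α : Ω} :
    (Tm.mix a r q).res α = Tm.mix a (r.res α) (q.res α) := by
  refine Tm.ext' (fun β => ?_) fun β i ξ c => ?_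
  · rw [Tm.res_len, Tm.mix_len, Tm.mix_len, Tm.res_len, Tm.res_len]
    split_ifs <;> simp
  · by_cases hβ : β < α
    · rw [Tm.res_v_lt hβ]
      show Loc c _ ↔ Loc c _
      rw [Tm.res_v_lt hβ, Tm.res_v_lt hβ]
    · have h1 : ∀ p : Tm Ω, ¬ (p.res α).v β i ξ c := by
        intro p hp
        have := (p.res α).out hp
        rw [Tm.res_len, if_neg hβ] at this
        exact absurd this (not_lt.2 (bot1_le i))
      constructor
      · intro h
        exact (h1 _ h).elim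
      · intro h
        have := (Tm.mix a (r.res α) (q.res α)).out h
        rw [Tm.mix_len, Tm.res_len, Tm.res_len, if_neg hβ, if_neg hβ, max_self] at this
        exact absurd this (not_lt.2 (bot1_le i))

/-! ### Limits -/

section lim

variable {ι : Type} [Countable ι] [LinearOrder ι] [Nonempty ι] (q : ι → Tm Ω)
  (h : ∀ i j, i ≤ j → Tm.Le Co.emp (q j) (q i))

include h in
theorem Tm.chain_iff {i j : ι} {β : Ω} {x : Om1} {ξ : Ω} {a : Co Ω} (hi : x < (q i).len β)
    (hj : x < (q j).len β) : (q i).v β x ξ a ↔ (q j).v β x ξ a := by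
  rcases le_total i j with hij | hij
  · exact (((h i j hij) β).2 x hi ξ a (Co.le_emp a)).symm
  · exact ((h j i hij) β).2 x hj ξ a (Co.le_emp a)

/-- the limit of a countable chain -/
noncomputable def Tm.lim : Tm Ω where
  len β := lub1 fun j => (q j).len β
  v β i ξ :=
    { s := fun a => ∃ j, (q j).v β i ξ a
      mono' := fun hab ⟨j, hj⟩ => ⟨j, ((q j).v β i ξ).mono hab hj⟩
      reg' := by
        intro a ha
        obtain ⟨b, _, j, hj⟩ := ha.exists
        refine ⟨j, ((q j).v β i ξ).reg (ha.imp ?_)⟩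
        rintro c _ ⟨k, hk⟩
        exact (Tm.chain_iff q h ((q k).out hk) ((q j).out hj)).1 hk }
  cnt := by
    refine (Set.countable_iUnion fun j => (q j).cnt).mono ?_
    rintro β ⟨i, hi⟩
    obtain ⟨j, hj⟩ := lt_lub1 hi
    exact Set.mem_iUnion.2 ⟨j, i, hj⟩
  uni := by
    rintro β i ξ ξ' a ⟨j, hj⟩ ⟨k, hk⟩
    exact (q j).uni hj ((Tm.chain_iff q h ((q k).out hk) ((q j).out hj)).1 hk)
  out := by
    rintro β i ξ a ⟨j, hj⟩
    exact ((q j).out hj).trans_le (le_lub1 (fun j => (q j).len β) j)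
  bd := by
    rintro β ⟨i, hi⟩
    obtain ⟨j0, hj0⟩ := lt_lub1 hi
    obtain ⟨hA, γ0, hγ0, _⟩ := (q j0).bd ⟨i, hj0⟩
    have h1 : ∀ j, ∃ β' < β, ∀ i ξ a, (q j).v β i ξ a → ξ < β' ∧ (q j).v β i ξ (a.res β') := by
      intro j
      by_cases hp : ∃ i, i < (q j).len β
      · exact ((q j).bd hp).2
      · exact ⟨γ0, hγ0, fun i ξ a h => (hp ⟨i, (q j).out h⟩).elim⟩
    choose g hg hg' using h1
    obtain ⟨e⟩ : Nonempty (ι ↪ ℕ) := Countable.exists_injective_nat ι |>.elim fun f hf => ⟨⟨f, hf⟩⟩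
    obtain ⟨δ, hδ, hδ'⟩ := hA (fun n => g (Function.invFun e n)) fun n => hg _
    refine ⟨hA, δ, hδ, ?_⟩
    rintro x ξ a ⟨j, hj⟩
    have h2 : g j < δ := by
      have := hδ' (e j)
      rwa [Function.leftInverse_invFun e.injective j] at this
    obtain ⟨h3, h4⟩ := hg' j _ _ _ hj
    refine ⟨h3.trans h2, j, ((q j).v β x ξ).mono ?_ h4⟩
    rw [← Co.res_res_of_le h2.le]
    exact Co.le_res _ _

theorem Tm.lim_le (j : ι) : Tm.Le Co.emp (Tm.lim q h) (q j) := by
  intro β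
  refine ⟨le_lub1 (fun j => (q j).len β) j, fun i hi ξ a _ => ?_⟩
  constructor
  · rintro ⟨k, hk⟩
    exact (Tm.chain_iff q h ((q k).out hk) hi).1 hk
  · intro h1
    exact ⟨j, h1⟩

theorem Tm.lim_len {β : Ω} {i : Om1} (hi : i < (Tm.lim q h).len β) : ∃ j, i < (q j).len β :=
  lt_lub1 hi

theorem Tm.lim_v {β : Ω} {i : Om1} {ξ : Ω} {a : Co Ω} :
    (Tm.lim q h).v β i ξ a ↔ ∃ j, (q j).v β i ξ a := Iff.rfl

/-- terms which agree with the members of the chain at the coordinates below `α` have the same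
limit below `α` -/
theorem Tm.lim_res {α : Ω} (q' : ι → Tm Ω) (h' : ∀ i j, i ≤ j → Tm.Le Co.emp (q' j) (q' i))
    (hq : ∀ j, (q j).res α = (q' j).res α) : (Tm.lim q h).res α = (Tm.lim q' h').res α := by
  refine Tm.ext' (fun β => ?_) fun β i ξ a => ?_
  · rw [Tm.res_len, Tm.res_len]
    split_ifs with hβ
    · show lub1 _ = lub1 _
      congr 1
      funext j
      rw [← Tm.res_len_lt (q := q j) hβ, hq j, Tm.res_len_lt hβ]
    · rfl
  · by_cases hβ : β < α
    · rw [Tm.res_v_lt hβ, Tm.res_v_lt hβ, Tm.lim_v, Tm.lim_v]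
      refine exists_congr fun j => ?_
      rw [← Tm.res_v_lt (q := q j) hβ, hq j, Tm.res_v_lt hβ]
    · have h1 : ∀ p : Tm Ω, ¬ (p.res α).v β i ξ a := by
        intro p hp
        have := (p.res α).out hp
        rw [Tm.res_len, if_neg hβ] at this
        exact absurd this (not_lt.2 (bot1_le i))
      exact ⟨fun h => (h1 _ h).elim, fun h => (h1 _ h).elim⟩

end lim

/-! ### Appending a value -/

theorem Act.exists_gt {β ξ : Ω} (hβ : Act β) (h : ξ < β) : ∃ γ < β, ξ < γ := by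
  obtain ⟨γ, hγ, h1⟩ := hβ (fun _ => ξ) fun _ => h
  exact ⟨γ, hγ, h1 0⟩

/-- append the value `ξ` at the coordinate `α` -/
noncomputable def Tm.snoc {α : Ω} (hα : Act α) (q : Tm Ω) {ξ : Ω} (hξ : ξ < α) : Tm Ω := by
  classical
  exact
  { len := fun β => if β = α then sc (q.len α) else q.len β
    v := fun β i η => if β = α ∧ i = q.len α then (if η = ξ then RP.top else RP.bot) else q.v β i η
    cnt := by
      refine (q.cnt.insert α).mono ?_
      rintro β ⟨i, hi⟩
      split_ifs at hi with h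
      · exact Or.inl h
      · exact Or.inr ⟨i, hi⟩
    uni := by
      intro β i η η' a h1 h2
      split_ifs at h1 h2 with h3 h4 h5 h5
      · rw [h4, h5]
      · exact h2.elim
      · exact h1.elim
      · exact h1.elim
      · exact q.uni h1 h2
    out := by
      intro β i η a h1
      split_ifs at h1 with h3 h4
      · rw [if_pos h3.1, h3.2]
        exact lt_sc.2 le_rfl
      · exact h1.elim
      · have := q.out h1
        split_ifs with h5
        · rw [h5] at this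
          exact lt_sc.2 this.le
        · exact this
    bd := by
      rintro β ⟨i, hi⟩
      by_cases h : β = α
      · subst h
        obtain ⟨γ, hγ, h1⟩ := hα.exists_gt hξ
        have h2 : ∃ β' < β, ∀ i ξ a, q.v β i ξ a → ξ < β' ∧ q.v β i ξ (a.res β') := by
          by_cases hp : ∃ i, i < q.len β
          · exact (q.bd hp).2
          · exact ⟨γ, hγ, fun i ξ a h => (hp ⟨i, q.out h⟩).elim⟩
        obtain ⟨δ, hδ, h2⟩ := h2
        refine ⟨hα, max γ δ, max_lt hγ hδ, ?_⟩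
        intro j η a h3
        split_ifs at h3 ⊢ with h4 h5
        · rw [h5]
          exact ⟨h1.trans_le (le_max_left _ _), trivial⟩
        · exact h3.elim
        · obtain ⟨h6, h7⟩ := h2 _ _ _ h3
          refine ⟨h6.trans_le (le_max_right _ _), (q.v β j η).mono ?_ h7⟩
          rw [← Co.res_res_of_le (le_max_right γ δ)]
          exact Co.le_res _ _
      · rw [if_neg h] at hi
        obtain ⟨h1, δ, hδ, h2⟩ := q.bd ⟨i, hi⟩
        refine ⟨h1, δ, hδ, fun j η a h3 => ?_⟩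
        rw [if_neg fun h4 => h h4.1] at h3 ⊢
        exact h2 _ _ _ h3 }

section snoc

variable {α ξ : Ω} (hα : Act α) (q : Tm Ω) (hξ : ξ < α)

theorem Tm.snoc_len : (Tm.snoc hα q hξ).len α = sc (q.len α) := if_pos rfl

theorem Tm.snoc_len_ne {β : Ω} (h : β ≠ α) : (Tm.snoc hα q hξ).len β = q.len β := if_neg h

theorem Tm.snoc_v_ne {β : Ω} (h : β ≠ α) {i : Om1} {η : Ω} :
    (Tm.snoc hα q hξ).v β i η = q.v β i η := if_neg fun h' => h h'.1

theorem Tm.snoc_v_lt {i : Om1} (h : i ≠ q.len α) {η : Ω} :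
    (Tm.snoc hα q hξ).v α i η = q.v α i η := if_neg fun h' => h h'.2

theorem Tm.snoc_v_last {η : Ω} {a : Co Ω} : (Tm.snoc hα q hξ).v α (q.len α) η a ↔ η = ξ := by
  classical
  have h : (Tm.snoc hα q hξ).v α (q.len α) η = if η = ξ then RP.top else RP.bot :=
    if_pos ⟨rfl, rfl⟩
  rw [h]
  split_ifs with h1
  · exact ⟨fun _ => h1, fun _ => trivial⟩
  · exact ⟨fun h => h.elim, fun h => (h1 h).elim⟩

theorem Tm.snoc_le : Tm.Le Co.emp (Tm.snoc hα q hξ) q := by
  intro β
  by_cases h : β = α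
  · subst h
    rw [Tm.snoc_len]
    refine ⟨(lt_sc.2 le_rfl).le, fun i hi η a _ => ?_⟩
    rw [Tm.snoc_v_lt hα q hξ hi.ne]
  · rw [Tm.snoc_len_ne hα q hξ h]
    refine ⟨le_rfl, fun i hi η a _ => ?_⟩
    rw [Tm.snoc_v_ne hα q hξ h]

theorem Tm.snoc_res : (Tm.snoc hα q hξ).res α = q.res α := by
  refine Tm.ext' (fun β => ?_) fun β i η a => ?_
  · rw [Tm.res_len, Tm.res_len]
    split_ifs with hβ
    · exact Tm.snoc_len_ne hα q hξ hβ.ne
    · rfl
  · by_cases hβ : β < α
    · rw [Tm.res_v_lt hβ, Tm.res_v_lt hβ, Tm.snoc_v_ne hα q hξ hβ.ne]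
    · have h1 : ∀ p : Tm Ω, ¬ (p.res α).v β i η a := by
        intro p hp
        have := (p.res α).out hp
        rw [Tm.res_len, if_neg hβ] at this
        exact absurd this (not_lt.2 (bot1_le i))
      exact ⟨fun h => (h1 _ h).elim, fun h => (h1 _ h).elim⟩

end snoc

end Pool.Agent.T27
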